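import Mathlib

/-!
# The number of noticed deletions

* `multi`: induction on `t`. For `t + 1` choose `Y₀ ⊆ Y` with `m` elements and put
  `Z = {x ∈ X | x has a neighbour in Y₀}`. By `hH` fewer than `m` points of `X` are outside `Z`, so
  `(t + 1) * m ≤ Z.ncard`; apply the induction hypothesis to `Z` and `Y \ Y₀`; the point found has
  one more neighbour, in `Y₀`. (For `m = 0` the hypothesis `hH` is contradictory.)
* `bad_out`: let `I` be the set, suppose `2 * ((t + 1) * m) < I.ncard`. Take `c ∈ I` such that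
  exactly `(t + 1) * m` elements of `I` are smaller than `c` (for instance by the order
  isomorphism of a finite set of numbers with an initial segment of `ℕ`), `X` the elements of `I`
  larger than `c` (as elements `i.castSucc`), `Y = {i.succ | i ∈ I, i < c}`. Every element of
  `Y` is at most `c` and smaller than every element of `X`. Both have at least `(t + 1) * m`
  elements. By `multi` some `x = i.castSucc ∈ X` has `t + 1` out-neighbours in `Y`, and all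
  elements of `Y` have `f = σ`: contradiction to `i ∈ I`.
* `bad_in`: the same with `multi` for the reversed relation: some element `i.succ ∈ Y` has
  `t + 1` in-neighbours in `X`, and all elements `j.castSucc` of `X` have `f = σ`.
* `bad_total`: sum over `σ` (for `σ = f i.succ` and `σ = f i.castSucc`).
-/

namespace Pool.Agent.MIP

theorem multi {α β : Type} [Finite α] [Finite β] (r : α → β → Prop) (m : ℕ) : ∀ (t : ℕ)
    (X : Set α) (Y : Set β),
    (∀ X' ⊆ X, ∀ Y' ⊆ Y, m ≤ X'.ncard → m ≤ Y'.ncard → ∃ x ∈ X', ∃ y ∈ Y', r x y) →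
    (t + 1) * m ≤ X.ncard → (t + 1) * m ≤ Y.ncard →
    ∃ x ∈ X, t + 1 ≤ Set.ncard {y | y ∈ Y ∧ r x y} := by
  intro t
  induction t with
  | zero =>
    intro X Y hH hX hY
    obtain ⟨x, hx, y, hy, hxy⟩ := hH X subset_rfl Y subset_rfl (by omega) (by omega)
    refine ⟨x, hx, ?_⟩
    rw [zero_add, Nat.one_le_iff_ne_zero]
    exact Set.ncard_ne_zero_of_mem (a := y) ⟨hy, hxy⟩ (Set.toFinite _)
  | succ t ih =>
    intro X Y hH hX hY
    have e1 : (t + 1 + 1) * m = (t + 1) * m + m := by ring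
    rw [e1] at hX hY
    obtain ⟨Y₀, hY₀, hc⟩ : ∃ Y₀ ⊆ Y, Y₀.ncard = m :=
      Set.exists_subset_card_eq (le_of_add_le_right hY)
    set Z : Set α := {x | x ∈ X ∧ ∃ y ∈ Y₀, r x y} with hZ
    have hZX : Z ⊆ X := fun x hx => hx.1
    have hdiff : (X \ Z).ncard < m := by
      by_contra hcon
      push Not at hcon
      obtain ⟨x, hx, y, hy, hxy⟩ := hH (X \ Z) Set.sdiff_subset Y₀ hY₀ hcon hc.ge
      exact hx.2 ⟨hx.1, y, hy, hxy⟩
    have hZc : (t + 1) * m ≤ Z.ncard := by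
      have := Set.ncard_sdiff_add_ncard_of_subset hZX (Set.toFinite X)
      omega
    have hYc : (t + 1) * m ≤ (Y \ Y₀).ncard := by
      have := Set.ncard_sdiff_add_ncard_of_subset hY₀ (Set.toFinite Y)
      omega
    obtain ⟨x, hx, hxc⟩ := ih Z (Y \ Y₀)
      (fun X' hX' Y' hY' => hH X' (hX'.trans hZX) Y' (hY'.trans Set.sdiff_subset)) hZc hYc
    obtain ⟨hxX, y₀, hy₀, hxy₀⟩ := hx
    refine ⟨x, hxX, ?_⟩
    have hnot : y₀ ∉ {y | y ∈ Y \ Y₀ ∧ r x y} := fun h => h.1.2 hy₀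
    have hins := Set.ncard_insert_of_notMem hnot (Set.toFinite _)
    have hsub : insert y₀ {y | y ∈ Y \ Y₀ ∧ r x y} ⊆ {y | y ∈ Y ∧ r x y} := by
      rintro y (rfl | hy)
      · exact ⟨hY₀ hy₀, hxy₀⟩
      · exact ⟨hy.1.1, hy.2⟩
    have := Set.ncard_le_ncard hsub (Set.toFinite _)
    omega

/-- An element in the middle. -/
private theorem middle {n : ℕ} (I : Set (Fin n)) (K : ℕ) (hK : 2 * K < I.ncard) :
    ∃ c ∈ I, K ≤ Set.ncard {i | i ∈ I ∧ i < c} ∧ K ≤ Set.ncard {i | i ∈ I ∧ c < i} := by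
  classical
  have hfin : I.Finite := Set.toFinite I
  set J : Finset (Fin n) := hfin.toFinset with hJ
  have hcard : J.card = I.ncard := (Set.ncard_eq_toFinset_card I hfin).symm
  set e := J.orderEmbOfFin rfl with he
  have hmem : ∀ j, e j ∈ I := fun j =>
    (Set.Finite.mem_toFinset hfin).mp (J.orderEmbOfFin_mem rfl j)
  have hKlt : K < J.card := by omega
  refine ⟨e ⟨K, hKlt⟩, hmem _, ?_, ?_⟩
  · have h1 : ((Finset.Iio (⟨K, hKlt⟩ : Fin J.card)).map e.toEmbedding).card = K := by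
      rw [Finset.card_map, Fin.card_Iio]
    refine h1.ge.trans ?_
    rw [← Set.ncard_coe_finset]
    refine Set.ncard_le_ncard ?_ (Set.toFinite _)
    intro i hi
    rw [Finset.mem_coe, Finset.mem_map] at hi
    obtain ⟨j, hj, rfl⟩ := hi
    exact ⟨hmem j, e.lt_iff_lt.mpr (Finset.mem_Iio.mp hj)⟩
  · have h1 : K ≤ ((Finset.Ioi (⟨K, hKlt⟩ : Fin J.card)).map e.toEmbedding).card := by
      rw [Finset.card_map, Fin.card_Ioi]
      simp only
      omega
    refine h1.trans ?_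
    rw [← Set.ncard_coe_finset]
    refine Set.ncard_le_ncard ?_ (Set.toFinite _)
    intro i hi
    rw [Finset.mem_coe, Finset.mem_map] at hi
    obtain ⟨j, hj, rfl⟩ := hi
    exact ⟨hmem j, e.lt_iff_lt.mpr (Finset.mem_Ioi.mp hj)⟩

theorem bad_out {n : ℕ} {τ : Type} {E : Fin (n + 1) → Fin (n + 1) → Prop} {m : ℕ}
    (hE : ∀ X Y : Set (Fin (n + 1)), m ≤ X.ncard → m ≤ Y.ncard → (∀ x ∈ X, ∀ y ∈ Y, y < x) →
      ∃ x ∈ X, ∃ y ∈ Y, E x y) (f : Fin (n + 1) → τ) (σ : τ) (t : ℕ) :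
    Set.ncard {i : Fin n | f i.succ = σ ∧ Set.ncard {w | E i.castSucc w ∧ f w = σ} ≤ t} ≤
      2 * ((t + 1) * m) := by
  by_contra hcon
  push Not at hcon
  obtain ⟨c, -, hlow, hup⟩ := middle _ _ hcon
  set I : Set (Fin n) :=
    {i : Fin n | f i.succ = σ ∧ Set.ncard {w | E i.castSucc w ∧ f w = σ} ≤ t} with hI
  set X : Set (Fin (n + 1)) := Fin.castSucc '' {i | i ∈ I ∧ c < i} with hX
  set Y : Set (Fin (n + 1)) := Fin.succ '' {i | i ∈ I ∧ i < c} with hY
  have hXc : (t + 1) * m ≤ X.ncard := by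
    rw [hX, Set.ncard_image_of_injective _ (Fin.castSucc_injective n)]
    exact hup
  have hYc : (t + 1) * m ≤ Y.ncard := by
    rw [hY, Set.ncard_image_of_injective _ (Fin.succ_injective n)]
    exact hlow
  have hlt : ∀ x ∈ X, ∀ y ∈ Y, y < x := by
    rintro _ ⟨i, hi, rfl⟩ _ ⟨j, hj, rfl⟩
    have h1 : j < c := hj.2
    have h2 : c < i := hi.2
    rw [Fin.lt_def, Fin.val_succ, Fin.val_castSucc]
    rw [Fin.lt_def] at h1 h2
    omega
  obtain ⟨x, hx, hxc⟩ := multi E m t X Y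
    (fun X' hX' Y' hY' h1 h2 => hE X' Y' h1 h2 fun x hx y hy => hlt x (hX' hx) y (hY' hy)) hXc hYc
  obtain ⟨i, hi, rfl⟩ := hx
  have h3 : Set.ncard {y | y ∈ Y ∧ E i.castSucc y} ≤
      Set.ncard {w | E i.castSucc w ∧ f w = σ} := by
    refine Set.ncard_le_ncard ?_ (Set.toFinite _)
    rintro y ⟨⟨j, hj, rfl⟩, hy⟩
    exact ⟨hy, hj.1.1⟩
  have h4 : Set.ncard {w | E i.castSucc w ∧ f w = σ} ≤ t := hi.1.2
  omega

theorem bad_in {n : ℕ} {τ : Type} {E : Fin (n + 1) → Fin (n + 1) → Prop} {m : ℕ}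
    (hE : ∀ X Y : Set (Fin (n + 1)), m ≤ X.ncard → m ≤ Y.ncard → (∀ x ∈ X, ∀ y ∈ Y, y < x) →
      ∃ x ∈ X, ∃ y ∈ Y, E x y) (f : Fin (n + 1) → τ) (σ : τ) (t : ℕ) :
    Set.ncard {i : Fin n | f i.castSucc = σ ∧ Set.ncard {w | E w i.succ ∧ f w = σ} ≤ t} ≤
      2 * ((t + 1) * m) := by
  by_contra hcon
  push Not at hcon
  obtain ⟨c, -, hlow, hup⟩ := middle _ _ hcon
  set I : Set (Fin n) :=
    {i : Fin n | f i.castSucc = σ ∧ Set.ncard {w | E w i.succ ∧ f w = σ} ≤ t} with hI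
  set X : Set (Fin (n + 1)) := Fin.castSucc '' {i | i ∈ I ∧ c < i} with hX
  set Y : Set (Fin (n + 1)) := Fin.succ '' {i | i ∈ I ∧ i < c} with hY
  have hXc : (t + 1) * m ≤ X.ncard := by
    rw [hX, Set.ncard_image_of_injective _ (Fin.castSucc_injective n)]
    exact hup
  have hYc : (t + 1) * m ≤ Y.ncard := by
    rw [hY, Set.ncard_image_of_injective _ (Fin.succ_injective n)]
    exact hlow
  have hlt : ∀ x ∈ X, ∀ y ∈ Y, y < x := by
    rintro _ ⟨i, hi, rfl⟩ _ ⟨j, hj, rfl⟩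
    have h1 : j < c := hj.2
    have h2 : c < i := hi.2
    rw [Fin.lt_def, Fin.val_succ, Fin.val_castSucc]
    rw [Fin.lt_def] at h1 h2
    omega
  obtain ⟨y, hy, hyc⟩ := multi (fun y x => E x y) m t Y X
    (fun Y' hY' X' hX' h1 h2 => by
      obtain ⟨x, hx, y, hy, hxy⟩ := hE X' Y' h2 h1 fun x hx y hy => hlt x (hX' hx) y (hY' hy)
      exact ⟨y, hy, x, hx, hxy⟩) hYc hXc
  obtain ⟨i, hi, rfl⟩ := hy
  have h3 : Set.ncard {x | x ∈ X ∧ E x i.succ} ≤
      Set.ncard {w | E w i.succ ∧ f w = σ} := by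
    refine Set.ncard_le_ncard ?_ (Set.toFinite _)
    rintro x ⟨⟨j, hj, rfl⟩, hx⟩
    exact ⟨hx, hj.1.1⟩
  have h4 : Set.ncard {w | E w i.succ ∧ f w = σ} ≤ t := hi.1.2
  omega

theorem bad_total {n : ℕ} {τ : Type} [Finite τ] {E : Fin (n + 1) → Fin (n + 1) → Prop} {m : ℕ}
    (hE : ∀ X Y : Set (Fin (n + 1)), m ≤ X.ncard → m ≤ Y.ncard → (∀ x ∈ X, ∀ y ∈ Y, y < x) →
      ∃ x ∈ X, ∃ y ∈ Y, E x y) (f : Fin (n + 1) → τ) (t : ℕ) :
    Set.ncard {i : Fin n | Set.ncard {w | E i.castSucc w ∧ f w = f i.succ} ≤ t ∨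
      Set.ncard {w | E w i.succ ∧ f w = f i.castSucc} ≤ t} ≤
      Nat.card τ * (4 * ((t + 1) * m)) := by
  classical
  have := Fintype.ofFinite τ
  let A : τ → Set (Fin n) := fun σ =>
    {i : Fin n | f i.succ = σ ∧ Set.ncard {w | E i.castSucc w ∧ f w = σ} ≤ t}
  let B : τ → Set (Fin n) := fun σ =>
    {i : Fin n | f i.castSucc = σ ∧ Set.ncard {w | E w i.succ ∧ f w = σ} ≤ t}
  have hsub : {i : Fin n | Set.ncard {w | E i.castSucc w ∧ f w = f i.succ} ≤ t ∨
      Set.ncard {w | E w i.succ ∧ f w = f i.castSucc} ≤ t} ⊆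
      ((Finset.univ.biUnion fun σ : τ => (Set.toFinite (A σ ∪ B σ)).toFinset : Finset (Fin n)) :
        Set (Fin n)) := by
    intro i hi
    simp only [Finset.coe_biUnion, Finset.coe_univ, Set.mem_univ, Set.iUnion_true,
      Set.Finite.coe_toFinset, Set.mem_iUnion]
    rcases hi with hi | hi
    · exact ⟨f i.succ, Or.inl ⟨rfl, hi⟩⟩
    · exact ⟨f i.castSucc, Or.inr ⟨rfl, hi⟩⟩
  have h1 := Set.ncard_le_ncard hsub (Finset.finite_toSet _)
  rw [Set.ncard_coe_finset] at h1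
  refine h1.trans ?_
  rw [Nat.card_eq_fintype_card, ← Finset.card_univ]
  refine Finset.card_biUnion_le_card_mul _ _ _ fun σ _ => ?_
  rw [← Set.ncard_eq_toFinset_card]
  have h2 := Set.ncard_union_le (A σ) (B σ)
  have h3 : (A σ).ncard ≤ 2 * ((t + 1) * m) := bad_out hE f σ t
  have h4 : (B σ).ncard ≤ 2 * ((t + 1) * m) := bad_in hE f σ t
  omega

end Pool.Agent.MIP
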