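import Pool.Agent.Lib.MP_d404e6_lc.Base

/-!
# Size of neighbourhoods

By induction on `D`: the points at distance at most `D + 1` from `S` are the points at distance
at most `D` and their neighbours.
-/

namespace Pool.Agent.MIP

theorem ball_ncard {V : Type} [Finite V] {G : SimpleGraph V} {Δ : ℕ}
    (hdeg : ∀ x, Set.ncard {y | G.Adj x y} ≤ Δ) (D : ℕ) (S : Set V) :
    Set.ncard {y | Near G D S y} ≤ S.ncard * (Δ + 1) ^ D := by
  classical
  induction D with
  | zero =>
    rw [pow_zero, mul_one]
    refine Set.ncard_le_ncard ?_ (Set.toFinite _)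
    rintro y ⟨s, hs, p, hp⟩
    have h0 : p.length = 0 := Nat.le_zero.mp hp
    rw [← SimpleGraph.Walk.eq_of_length_eq_zero h0]
    exact hs
  | succ D ih =>
    have hA : {y | Near G D S y}.Finite := Set.toFinite _
    have hsub : {y | Near G (D + 1) S y} ⊆ ((hA.toFinset ∪ hA.toFinset.biUnion
        (fun x => (Set.toFinite {y | G.Adj x y}).toFinset) : Finset V) : Set V) := by
      rintro y ⟨s, hs, p, hp⟩
      rw [Finset.coe_union, Set.mem_union]
      have key : Near G D S y ∨ ∃ x, Near G D S x ∧ G.Adj x y := by
        rcases hq : p.reverse with _ | ⟨h, q⟩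
        · left
          exact ⟨_, hs, SimpleGraph.Walk.nil, Nat.zero_le _⟩
        · right
          have hlen : p.length = q.length + 1 := by
            have := congrArg SimpleGraph.Walk.length hq
            rw [SimpleGraph.Walk.length_reverse, SimpleGraph.Walk.length_cons] at this
            exact this
          refine ⟨_, ⟨s, hs, q.reverse, ?_⟩, h.symm⟩
          rw [SimpleGraph.Walk.length_reverse]
          omega
      rcases key with h | ⟨x, hx, hxy⟩
      · left
        simpa using h
      · right
        simp only [Finset.coe_biUnion, Set.Finite.coe_toFinset, Set.mem_iUnion]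
        exact ⟨x, hx, hxy⟩
    have h1 := Set.ncard_le_ncard hsub (Finset.finite_toSet _)
    rw [Set.ncard_coe_finset] at h1
    have h2 : (hA.toFinset.biUnion
        (fun x => (Set.toFinite {y | G.Adj x y}).toFinset)).card ≤ hA.toFinset.card * Δ := by
      refine Finset.card_biUnion_le_card_mul _ _ _ fun x _ => ?_
      rw [← Set.ncard_eq_toFinset_card]
      exact hdeg x
    have h3 : hA.toFinset.card = Set.ncard {y | Near G D S y} :=
      (Set.ncard_eq_toFinset_card _ hA).symm
    have h4 := Finset.card_union_le hA.toFinset (hA.toFinset.biUnion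
        (fun x => (Set.toFinite {y | G.Adj x y}).toFinset))
    rw [h3] at h2 h4
    calc Set.ncard {y | Near G (D + 1) S y} ≤ Set.ncard {y | Near G D S y} +
          Set.ncard {y | Near G D S y} * Δ := by omega
      _ = Set.ncard {y | Near G D S y} * (Δ + 1) := by ring
      _ ≤ (S.ncard * (Δ + 1) ^ D) * (Δ + 1) := Nat.mul_le_mul_right _ ih
      _ = S.ncard * (Δ + 1) ^ (D + 1) := by ring

end Pool.Agent.MIP
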