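import Mathlib

/-!
# Combinatorial definitions: back-and-forth systems, threshold types, closed sets
-/

namespace Pool.Agent.MIP

/-- Back-and-forth equivalence up to `q` moves of the coloured digraphs `(V, E, col)` and
`(V, E', col)`, pointwise over the identity. -/
def BF {V κ : Type} (q : ℕ) (E E' : V → V → Prop) (col : V → κ) : Prop :=
  ∃ F : ℕ → Set (V × V) → Prop,
    (∀ m R, F m R → ∀ p ∈ R, col p.1 = col p.2) ∧
    (∀ m R, F m R → ∀ p ∈ R, ∀ r ∈ R, (p.1 = r.1 ↔ p.2 = r.2) ∧ (E p.1 r.1 ↔ E' p.2 r.2)) ∧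
    (∀ m R, F (m + 1) R → ∀ x, ∃ y R', F m R' ∧ R ⊆ R' ∧ (x, y) ∈ R') ∧
    (∀ m R, F (m + 1) R → ∀ y, ∃ x R', F m R' ∧ R ⊆ R' ∧ (x, y) ∈ R') ∧
    ∀ x, ∃ R, F q R ∧ (x, x) ∈ R

/-- The underlying undirected graph. -/
abbrev und {V : Type} (E : V → V → Prop) : SimpleGraph V := SimpleGraph.fromRel E

/-- Delete the edge from `a` to `b`. -/
def del {V : Type} (E : V → V → Prop) (a b : V) : V → V → Prop :=
  fun x y => E x y ∧ ¬ (x = a ∧ y = b)

/-- No cycle has length at most `g`. -/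
def NoShort {V : Type} (G : SimpleGraph V) (g : ℕ) : Prop :=
  ∀ (u : V) (w : G.Walk u u), w.IsCycle → g < w.length

/-- `S` contains every path of length at most `D` between two of its points. -/
def Cl {V : Type} (G : SimpleGraph V) (D : ℕ) (S : Set V) : Prop :=
  ∀ x ∈ S, ∀ y ∈ S, ∀ p : G.Walk x y, p.IsPath → p.length ≤ D → ∀ z ∈ p.support, z ∈ S

/-- `x` has distance at most `D` from `S`. -/
def Near {V : Type} (G : SimpleGraph V) (D : ℕ) (S : Set V) (x : V) : Prop :=
  ∃ s ∈ S, ∃ p : G.Walk s x, p.length ≤ D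

/-- Threshold types of depth `d`, threshold `t`, over the colours `κ`. -/
def Ty (κ : Type) (t : ℕ) : ℕ → Type
  | 0 => κ
  | d + 1 => Ty κ t d × (Ty κ t d → Fin (t + 1)) × (Ty κ t d → Fin (t + 1))

/-- `min t k` as an element of `Fin (t + 1)`. -/
def cut (t k : ℕ) : Fin (t + 1) := ⟨min t k, by omega⟩

/-- The threshold type of depth `d` of a vertex: its type of depth `d - 1` together with the
numbers (cut at `t`) of its out-neighbours and in-neighbours of every type of depth `d - 1`. -/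
noncomputable def tp {V κ : Type} (t : ℕ) (E : V → V → Prop) (col : V → κ) :
    (d : ℕ) → V → Ty κ t d
  | 0, v => col v
  | d + 1, v => (tp t E col d v,
      fun σ => cut t (Set.ncard {w | E v w ∧ tp t E col d w = σ}),
      fun σ => cut t (Set.ncard {w | E w v ∧ tp t E col d w = σ}))

/-- The situation of the back-and-forth argument (symmetric in `E` and `E'`). -/
structure Pair {V κ : Type} (t dm g B r : ℕ) (E E' : V → V → Prop) (col : V → κ)
    (S₀ : Set V) : Prop where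
  asym : ∀ x y, E x y → ¬ E y x
  asym' : ∀ x y, E' x y → ¬ E' y x
  girth : NoShort (und E) g
  girth' : NoShort (und E') g
  tpeq : ∀ d ≤ dm, ∀ x, tp t E col d x = tp t E' col d x
  nbr : ∀ x ∈ S₀, ∀ y, (E x y ↔ E' x y) ∧ (E y x ↔ E' y x)
  cl0 : Cl (und E) 2 S₀
  cl0' : Cl (und E') 2 S₀
  freq : ∀ x, x ∉ S₀ → ∀ S : Set V, S.ncard ≤ S₀.ncard + B →
    ∃ y, tp t E col dm y = tp t E col dm x ∧ ¬ Near (und E) r S y
  freq' : ∀ x, x ∉ S₀ → ∀ S : Set V, S.ncard ≤ S₀.ncard + B →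
    ∃ y, tp t E' col dm y = tp t E' col dm x ∧ ¬ Near (und E') r S y

/-- Configurations: finite partial isomorphisms preserving types of depth `d`, with domain and
range closed for paths of length at most `D`, which are the identity on `S₀` and have at most `N`
further points. -/
structure Cfg {V κ : Type} (t : ℕ) (E E' : V → V → Prop) (col : V → κ) (S₀ : Set V)
    (D d N : ℕ) (R : Set (V × V)) : Prop where
  inj : ∀ p ∈ R, ∀ r ∈ R, (p.1 = r.1 ↔ p.2 = r.2)
  edge : ∀ p ∈ R, ∀ r ∈ R, (E p.1 r.1 ↔ E' p.2 r.2)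
  typ : ∀ p ∈ R, tp t E col d p.1 = tp t E' col d p.2
  cl : Cl (und E) D (Prod.fst '' R)
  cl' : Cl (und E') D (Prod.snd '' R)
  diag : ∀ x ∈ S₀, (x, x) ∈ R
  card : R.ncard ≤ S₀.ncard + N

end Pool.Agent.MIP
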