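import Pool.Agent.Lib.MP_d404e6_lc.Base

/-!
# Closed sets in graphs without short cycles

* `cl_insert_adj`: let `p ∉ S` be adjacent to `s ∈ S`, `S` closed for `D + 1`. A path `q` of
  length at most `D` from `p` to `y ∈ S`: if `s` is not on `q` then `s p q` is a path of length
  at most `D + 1` between points of `S`, so `p ∈ S`, contradiction. So `s` is on `q`; the part of
  `q` from `p` to `s` together with the edge `s p` would be a cycle of length at most `D + 1`
  unless it is that edge; so `q = p s q'` and `q'` lies in `S` by closedness. Paths between two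
  points of `S` are clear, paths from `y ∈ S` to `p`: reverse; from `p` to `p`: trivial path.
* `cl_insert_far`: there is no path of length at most `D` between `x` and `S`.
* `cl_add`: if `x` is not near, insert it. Otherwise take a walk of length `ℓ ≤ D` from `s ∈ S`
  to `x` and prove by induction on `ℓ`: if `S` is closed for `D + ℓ` then some `S' ⊇ S` contains
  `x`, is closed for `D`, has at most `ℓ` new points, all of them at distance at most `ℓ` from
  `S`: for `ℓ + 1` let `p` be the second vertex; if `p ∈ S` use the induction hypothesis, else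
  insert `p` with `cl_insert_adj`.
* `closure`: induction on `a` with `D` replaced by `2 * D`, using `cl_add`.
-/

namespace Pool.Agent.MIP

set_option linter.unusedVariables false

variable {V : Type}

theorem cl_mono {G : SimpleGraph V} {D D' : ℕ} {S : Set V} (h : D' ≤ D) (hS : Cl G D S) :
    Cl G D' S :=
  fun x hx y hy p hp hl => hS x hx y hy p hp (hl.trans h)

theorem cl_le {G G' : SimpleGraph V} (hG : G' ≤ G) {D : ℕ} {S : Set V} (hS : Cl G D S) :
    Cl G' D S := by
  intro x hx y hy p hp hl z hz
  refine hS x hx y hy (p.mapLe hG) (hp.mapLe hG) ?_ z ?_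
  · rw [SimpleGraph.Walk.length_map]
    exact hl
  · rw [SimpleGraph.Walk.support_mapLe_eq_support]
    exact hz

theorem near_mono {G : SimpleGraph V} {D D' : ℕ} {S : Set V} {x : V} (h : D' ≤ D)
    (hx : Near G D' S x) : Near G D S x := by
  obtain ⟨s, hs, p, hp⟩ := hx
  exact ⟨s, hs, p, hp.trans h⟩

theorem near_le {G G' : SimpleGraph V} (hG : G' ≤ G) {D : ℕ} {S : Set V} {x : V}
    (hx : Near G' D S x) : Near G D S x := by
  obtain ⟨s, hs, p, hp⟩ := hx
  refine ⟨s, hs, p.mapLe hG, ?_⟩
  rw [SimpleGraph.Walk.length_map]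
  exact hp

private theorem noShort_mono {G : SimpleGraph V} {g g' : ℕ} (h : g' ≤ g) (hG : NoShort G g) :
    NoShort G g' :=
  fun u w hw => h.trans_lt (hG u w hw)

private theorem cl_insert_path {G : SimpleGraph V} {D : ℕ} (hG : NoShort G (D + 1))
    {S : Set V} (hS : Cl G (D + 1) S) {s p : V} (hs : s ∈ S) (hp : p ∉ S) (hadj : G.Adj s p)
    {y : V} (hy : y ∈ S) (q : G.Walk p y) (hq : q.IsPath) (hl : q.length ≤ D) :
    ∀ z ∈ q.support, z ∈ insert p S := by
  classical
  cases q with
  | nil => exact absurd hy hp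
  | @cons _ v _ h q' =>
    rw [SimpleGraph.Walk.cons_isPath_iff] at hq
    rw [SimpleGraph.Walk.length_cons] at hl
    have hsp : s ≠ p := fun e => hp (e ▸ hs)
    by_cases hv : v = s
    · subst hv
      intro z hz
      rw [SimpleGraph.Walk.support_cons, List.mem_cons] at hz
      rcases hz with rfl | hz
      · exact Set.mem_insert _ _
      · exact Set.mem_insert_of_mem _ (hS v hs y hy q' hq.1 (by omega) z hz)
    · exfalso
      have hpath : (SimpleGraph.Walk.cons h q').IsPath :=
        (SimpleGraph.Walk.cons_isPath_iff _ _).2 hq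
      by_cases hsq : s ∈ (SimpleGraph.Walk.cons h q').support
      · have he : s(s, p) ∉ ((SimpleGraph.Walk.cons h q').takeUntil s hsq).edges := by
          intro he
          have h1 := SimpleGraph.Walk.edges_takeUntil_subset_edges _ hsq he
          rw [SimpleGraph.Walk.edges_cons, List.mem_cons] at h1
          rcases h1 with h1 | h1
          · rw [Sym2.eq_iff] at h1
            rcases h1 with ⟨h2, _⟩ | ⟨h2, _⟩
            · exact hsp h2
            · exact hv h2.symm
          · exact hq.2 (SimpleGraph.Walk.snd_mem_support_of_mem_edges q' h1)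
        have hc := SimpleGraph.Path.cons_isCycle
          ⟨(SimpleGraph.Walk.cons h q').takeUntil s hsq, hpath.takeUntil hsq⟩ hadj he
        have h1 := hG s _ hc
        rw [SimpleGraph.Walk.length_cons] at h1
        have h2 := (SimpleGraph.Walk.cons h q').length_takeUntil_le_length hsq
        rw [SimpleGraph.Walk.length_cons] at h2
        have h3 : ((SimpleGraph.Walk.cons h q').takeUntil s hsq).length + 1 ≤ D + 1 := by omega
        exact absurd h1 (not_lt.2 h3)
      · have h1 : (SimpleGraph.Walk.cons hadj (SimpleGraph.Walk.cons h q')).IsPath :=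
          (SimpleGraph.Walk.cons_isPath_iff _ _).2 ⟨hpath, hsq⟩
        have h2 := hS s hs y hy _ h1 (by
          rw [SimpleGraph.Walk.length_cons, SimpleGraph.Walk.length_cons]
          omega) p (by
          rw [SimpleGraph.Walk.support_cons]
          exact List.mem_cons_of_mem _ (SimpleGraph.Walk.start_mem_support _))
        exact hp h2

theorem cl_insert_adj {G : SimpleGraph V} {D : ℕ} (hD : 1 ≤ D) (hG : NoShort G (D + 1))
    {S : Set V} (hS : Cl G (D + 1) S) {s p : V} (hs : s ∈ S) (hp : p ∉ S) (hadj : G.Adj s p) :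
    Cl G D (insert p S) := by
  intro x hx y hy q hq hl z hz
  rcases Set.mem_insert_iff.1 hx with rfl | hx1
  · rcases Set.mem_insert_iff.1 hy with hy | hy
    · subst hy
      have hq0 : q = SimpleGraph.Walk.nil := SimpleGraph.Walk.eq_nil_iff_nil.2
        (SimpleGraph.Walk.isPath_iff_nil.1 hq)
      subst hq0
      rw [SimpleGraph.Walk.support_nil, List.mem_singleton] at hz
      subst hz
      exact hx
    · exact cl_insert_path hG hS hs hp hadj hy q hq hl z hz
  · rcases Set.mem_insert_iff.1 hy with rfl | hy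
    · refine cl_insert_path hG hS hs hp hadj hx1 q.reverse hq.reverse ?_ z ?_
      · rw [SimpleGraph.Walk.length_reverse]
        exact hl
      · rw [SimpleGraph.Walk.support_reverse, List.mem_reverse]
        exact hz
    · exact Set.mem_insert_of_mem _ (hS x hx1 y hy q hq (by omega) z hz)

theorem cl_insert_far {G : SimpleGraph V} {D : ℕ} {S : Set V} (hS : Cl G D S) {x : V}
    (hx : ¬ Near G D S x) : Cl G D (insert x S) := by
  intro a ha b hb q hq hl z hz
  rcases Set.mem_insert_iff.1 ha with rfl | ha1
  · rcases Set.mem_insert_iff.1 hb with hb | hb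
    · subst hb
      have hq0 : q = SimpleGraph.Walk.nil := SimpleGraph.Walk.eq_nil_iff_nil.2
        (SimpleGraph.Walk.isPath_iff_nil.1 hq)
      subst hq0
      rw [SimpleGraph.Walk.support_nil, List.mem_singleton] at hz
      subst hz
      exact ha
    · exact absurd ⟨b, hb, q.reverse, by rw [SimpleGraph.Walk.length_reverse]; exact hl⟩ hx
  · rcases Set.mem_insert_iff.1 hb with rfl | hb
    · exact absurd ⟨a, ha1, q, hl⟩ hx
    · exact Set.mem_insert_of_mem _ (hS a ha1 b hb q hq hl z hz)

private theorem cl_add_walk [Finite V] {G : SimpleGraph V} {D : ℕ} (hD : 1 ≤ D) {s x : V}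
    (p : G.Walk s x) : ∀ S : Set V, s ∈ S → NoShort G (D + p.length) → Cl G (D + p.length) S →
    ∃ S' : Set V, S ⊆ S' ∧ x ∈ S' ∧ Cl G D S' ∧ S'.ncard ≤ S.ncard + p.length ∧
      ∀ z ∈ S', z ∈ S ∨ Near G p.length S z := by
  induction p with
  | nil =>
    intro S hs _ hS
    exact ⟨S, le_rfl, hs, hS, by simp, fun z hz => Or.inl hz⟩
  | @cons s v x h p' ih =>
    intro S hs hG hS
    rw [SimpleGraph.Walk.length_cons] at hG hS ⊢
    by_cases hv : v ∈ S
    · obtain ⟨S', h1, h2, h3, h4, h5⟩ := ih S hv (noShort_mono (by omega) hG)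
        (cl_mono (by omega) hS)
      exact ⟨S', h1, h2, h3, by omega, fun z hz => (h5 z hz).imp_right (near_mono (by omega))⟩
    · have hc : Cl G (D + p'.length) (insert v S) :=
        cl_insert_adj (by omega) (by rw [add_assoc]; exact hG) (by rw [add_assoc]; exact hS)
          hs hv h
      obtain ⟨S', h1, h2, h3, h4, h5⟩ := ih (insert v S) (Set.mem_insert _ _)
        (noShort_mono (by omega) hG) hc
      have h6 := Set.ncard_insert_le v S
      refine ⟨S', (Set.subset_insert _ _).trans h1, h2, h3, by omega, fun z hz => ?_⟩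
      rcases h5 z hz with h7 | ⟨s1, hs1, w, hw⟩
      · rcases Set.mem_insert_iff.1 h7 with rfl | h7
        · exact Or.inr ⟨s, hs, SimpleGraph.Walk.cons h SimpleGraph.Walk.nil, by simp⟩
        · exact Or.inl h7
      · rcases Set.mem_insert_iff.1 hs1 with rfl | hs1
        · exact Or.inr ⟨s, hs, SimpleGraph.Walk.cons h w, by
            rw [SimpleGraph.Walk.length_cons]; omega⟩
        · exact Or.inr ⟨s1, hs1, w, by omega⟩

theorem cl_add [Finite V] {G : SimpleGraph V} {D : ℕ} (hD : 1 ≤ D) (hG : NoShort G (2 * D))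
    {S : Set V} (hS : Cl G (2 * D) S) (x : V) :
    ∃ S' : Set V, S ⊆ S' ∧ x ∈ S' ∧ Cl G D S' ∧ S'.ncard ≤ S.ncard + D + 1 ∧
      ∀ z ∈ S', z ∈ S ∨ z = x ∨ Near G D S z := by
  by_cases hx : Near G D S x
  · obtain ⟨s, hs, p, hp⟩ := hx
    obtain ⟨S', h1, h2, h3, h4, h5⟩ := cl_add_walk hD p S hs (noShort_mono (by omega) hG)
      (cl_mono (by omega) hS)
    exact ⟨S', h1, h2, h3, by omega, fun z hz => (h5 z hz).imp_right fun h => Or.inr
      (near_mono hp h)⟩
  · have h6 := Set.ncard_insert_le x S
    refine ⟨insert x S, Set.subset_insert _ _, Set.mem_insert _ _,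
      cl_insert_far (cl_mono (by omega) hS) hx, by omega, fun z hz => ?_⟩
    rcases Set.mem_insert_iff.1 hz with h | h
    · exact Or.inr (Or.inl h)
    · exact Or.inl h

theorem closure [Finite V] {G : SimpleGraph V} (a : ℕ) : ∀ (D : ℕ) (A : Set V), 1 ≤ D →
    NoShort G (2 ^ a * D) → A.ncard ≤ a →
    ∃ S : Set V, A ⊆ S ∧ Cl G D S ∧ S.ncard + D ≤ 2 ^ a * D + a := by
  induction a with
  | zero =>
    intro D A hD hG hA
    have hA0 : A = ∅ := (Set.ncard_eq_zero A.toFinite).1 (by omega)
    subst hA0
    refine ⟨∅, le_rfl, fun x hx => absurd hx (Set.notMem_empty x), ?_⟩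
    rw [Set.ncard_empty]
    omega
  | succ a ih =>
    intro D A hD hG hA
    rcases Set.eq_empty_or_nonempty A with rfl | ⟨x, hx⟩
    · refine ⟨∅, le_rfl, fun x hx => absurd hx (Set.notMem_empty x), ?_⟩
      rw [Set.ncard_empty]
      have : 1 * D ≤ 2 ^ (a + 1) * D := Nat.mul_le_mul_right D Nat.one_le_two_pow
      omega
    · have e : 2 ^ (a + 1) * D = 2 ^ a * (2 * D) := by ring
      have h1 : (A \ {x}).ncard ≤ a := by
        have := Set.ncard_sdiff_singleton_add_one hx A.toFinite
        omega
      obtain ⟨S1, h2, h3, h4⟩ := ih (2 * D) (A \ {x}) (by omega) (by rw [← e]; exact hG) h1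
      have h5 : 2 * D ≤ 2 ^ a * (2 * D) := by
        have : 1 * (2 * D) ≤ 2 ^ a * (2 * D) := Nat.mul_le_mul_right _ Nat.one_le_two_pow
        omega
      obtain ⟨S', h6, h7, h8, h9, _⟩ := cl_add hD (noShort_mono (by omega) hG) h3 x
      refine ⟨S', ?_, h8, by omega⟩
      intro z hz
      by_cases hzx : z = x
      · rw [hzx]
        exact h7
      · exact h6 (h2 ⟨hz, hzx⟩)

end Pool.Agent.MIP
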