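import Pool.Agent.Lib.MP_d404e6_lc.Types
import Pool.Agent.Lib.MP_d404e6_lc.Closed

/-!
# Symmetry and weakening of configurations
-/

namespace Pool.Agent.MIP

variable {V κ : Type}

theorem Pair.symm {t dm g B r : ℕ} {E E' : V → V → Prop} {col : V → κ} {S₀ : Set V}
    (h : Pair t dm g B r E E' col S₀) : Pair t dm g B r E' E col S₀ where
  asym := h.asym'
  asym' := h.asym
  girth := h.girth'
  girth' := h.girth
  tpeq := fun d hd x => (h.tpeq d hd x).symm
  nbr := fun x hx y => ⟨(h.nbr x hx y).1.symm, (h.nbr x hx y).2.symm⟩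
  cl0 := h.cl0'
  cl0' := h.cl0
  freq := h.freq'
  freq' := h.freq

private theorem fst_swap_image (R : Set (V × V)) :
    Prod.fst '' (Prod.swap '' R) = Prod.snd '' R := by
  rw [Set.image_image]; rfl

private theorem snd_swap_image (R : Set (V × V)) :
    Prod.snd '' (Prod.swap '' R) = Prod.fst '' R := by
  rw [Set.image_image]; rfl

theorem Cfg.symm [Finite V] {t D d N : ℕ} {E E' : V → V → Prop} {col : V → κ} {S₀ : Set V}
    {R : Set (V × V)} (h : Cfg t E E' col S₀ D d N R) :
    Cfg t E' E col S₀ D d N (Prod.swap '' R) where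
  inj := by
    rintro _ ⟨p, hp, rfl⟩ _ ⟨r, hr, rfl⟩
    exact (h.inj p hp r hr).symm
  edge := by
    rintro _ ⟨p, hp, rfl⟩ _ ⟨r, hr, rfl⟩
    exact (h.edge p hp r hr).symm
  typ := by
    rintro _ ⟨p, hp, rfl⟩
    exact (h.typ p hp).symm
  cl := by
    rw [fst_swap_image]; exact h.cl'
  cl' := by
    rw [snd_swap_image]; exact h.cl
  diag := fun x hx => ⟨(x, x), h.diag x hx, rfl⟩
  card := by
    rw [Set.ncard_image_of_injective _ Prod.swap_injective]; exact h.card

theorem Cfg.weaken {t D d N D' d' N' : ℕ} {E E' : V → V → Prop} {col : V → κ} {S₀ : Set V}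
    {R : Set (V × V)} (h : Cfg t E E' col S₀ D d N R) (hD : D' ≤ D) (hd : d' ≤ d)
    (hN : N ≤ N') : Cfg t E E' col S₀ D' d' N' R where
  inj := h.inj
  edge := h.edge
  typ := fun p hp => tp_le hd (h.typ p hp)
  cl := cl_mono hD h.cl
  cl' := cl_mono hD h.cl'
  diag := h.diag
  card := h.card.trans (by omega)

/-- The number of points of the domain outside `S₀` is at most `N`. -/
theorem Cfg.new_card [Finite V] {t D d N : ℕ} {E E' : V → V → Prop} {col : V → κ} {S₀ : Set V}
    {R : Set (V × V)} (h : Cfg t E E' col S₀ D d N R) :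
    Set.ncard ((Prod.fst '' R) \ S₀) ≤ N := by
  have hsub : S₀ ⊆ Prod.fst '' R := fun x hx => ⟨(x, x), h.diag x hx, rfl⟩
  have h1 : Set.ncard ((Prod.fst '' R) \ S₀) + S₀.ncard = (Prod.fst '' R).ncard :=
    Set.ncard_sdiff_add_ncard_of_subset hsub
  have h2 : (Prod.fst '' R).ncard ≤ R.ncard := Set.ncard_image_le
  have h3 := h.card
  omega

end Pool.Agent.MIP
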