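import Mathlib

/-!
# A gap in the sizes of the classes

If for every `j ≤ Nat.card τ` some class had its size in `(M j, M (j + 1)]`, these intervals are
disjoint, so there would be more than `Nat.card τ` classes.
-/

namespace Pool.Agent.MIP

theorem gap {V τ : Type} [Finite τ] (f : V → τ) (M : ℕ → ℕ) (hM : ∀ j, M j ≤ M (j + 1)) :
    ∃ j ≤ Nat.card τ, ∀ σ : τ, Set.ncard {v | f v = σ} ≤ M j ∨
      M (j + 1) < Set.ncard {v | f v = σ} := by
  by_contra hcon
  push Not at hcon
  have hmono : Monotone M := monotone_nat_of_le_succ hM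
  have hch : ∀ j : Fin (Nat.card τ + 1), ∃ σ : τ, M j < Set.ncard {v | f v = σ} ∧
      Set.ncard {v | f v = σ} ≤ M (j + 1) := fun j => hcon j (by omega)
  choose s hs using hch
  have hinj : Function.Injective s := by
    intro i j hij
    by_contra hne
    rcases lt_or_gt_of_ne hne with h | h
    · have h1 := (hs i).2
      have h2 := (hs j).1
      rw [hij] at h1
      have h3 : M ((i : ℕ) + 1) ≤ M (j : ℕ) := hmono (by exact_mod_cast h)
      omega
    · have h1 := (hs j).2
      have h2 := (hs i).1
      rw [hij] at h2
      have h3 : M ((j : ℕ) + 1) ≤ M (i : ℕ) := hmono (by exact_mod_cast h)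
      omega
  have h1 := Nat.card_le_card_of_injective s hinj
  rw [Nat.card_eq_fintype_card, Fintype.card_fin] at h1
  omega

/-- The points in the small classes. -/
theorem rare_ncard {V τ : Type} [Finite V] [Finite τ] (f : V → τ) (m : ℕ) :
    Set.ncard {v | Set.ncard {w | f w = f v} ≤ m} ≤ Nat.card τ * m := by
  classical
  have : Fintype V := Fintype.ofFinite V
  have : Fintype τ := Fintype.ofFinite τ
  set S : Finset V := Finset.univ.filter (fun v => Set.ncard {w | f w = f v} ≤ m) with hS
  have h1 : Set.ncard {v | Set.ncard {w | f w = f v} ≤ m} = S.card := by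
    rw [← Set.ncard_coe_finset]
    congr 1
    ext v
    simp [hS]
  have h2 : S.card ≤ m * (S.image f).card := by
    refine Finset.card_le_mul_card_image S m ?_
    intro a ha
    obtain ⟨v, hv, rfl⟩ := Finset.mem_image.1 ha
    have h3 : Set.ncard {w | f w = f v} ≤ m := (Finset.mem_filter.1 hv).2
    refine le_trans ?_ h3
    rw [← Set.ncard_coe_finset]
    refine Set.ncard_le_ncard ?_ (Set.toFinite _)
    intro w hw
    simp only [Finset.coe_filter, Set.mem_ofPred_eq] at hw
    exact hw.2
  have h4 : (S.image f).card ≤ Nat.card τ := by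
    rw [Nat.card_eq_fintype_card]
    exact Finset.card_le_univ _
  rw [h1]
  calc S.card ≤ m * (S.image f).card := h2
    _ ≤ m * Nat.card τ := Nat.mul_le_mul_left m h4
    _ = Nat.card τ * m := mul_comm _ _

end Pool.Agent.MIP
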