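import Pool.Agent.Lib.MP_d404e6_lc.Rand2

/-!
# The graph of a good function

Edges of `Gr f`: the path `0 → 1 → ...`, and `x → y` for `y = f (a, x)` going at least two steps
down with `(a, x)` not bad and at most `Δ₀` keys pointing at `y`.

* `gr_noShort`: a cycle of length at most `g` in the underlying graph cannot only use path edges
  (take its largest vertex `x`: both its neighbours on the cycle are smaller; they would both be
  `x - 1`, but they are different). Let `x` be the largest vertex of the cycle; one of its two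
  neighbours on the cycle is not `x - 1`, so it is a `y` with `y + 1 < x` and an edge `x → y` with
  key `(a, x)`, not bad, `f (a, x) = y`. The rest of the cycle is a path of length at most `g - 1`
  from `x` to `y` which does not use the edge `x y`; every edge of it is an edge of
  `Off Δ₀ f (a, x)`: if it comes from a key `k` then `k ≠ (a, x)` because that key gives the edge
  `x y`. So `(a, x)` is bad, contradiction.
* `gr_deg`: as `off_deg`.
* `gr_exp`: let `n ≤ k * |X|`, `n ≤ k * |Y|`, all elements of `Y` smaller than all elements of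
  `X`. Remove from `Y` the targets with more than `Δ₀ = 3 * k * C` keys (there are at most
  `n / (3 * k)` of them, because there are `C * n` keys), and from `X` its smallest element and
  all `x` such that some `(a, x)` is bad (at most `b`). If `n ≥ 3 * k * (b + 2)` the remaining
  sets satisfy `n ≤ 3 * k * |X'|`, `n ≤ 3 * k * |Y'|`, so by the property of `f` some
  `f (a, x) ∈ Y'`, and this is an edge of `Gr f` (`y + 1 < x` because `x` is not the smallest
  element of `X`).
-/

namespace Pool.Agent.MIP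

/-- The digraph of `f`. -/
def Gr {C n : ℕ} (Δ₀ g : ℕ) (f : Fin C × Fin n → Fin n) (x y : Fin n) : Prop :=
  y.val = x.val + 1 ∨ (y.val + 1 < x.val ∧ Set.ncard {k | f k = y} ≤ Δ₀ ∧
    ∃ a, ¬ BadKey Δ₀ g f (a, x) ∧ f (a, x) = y)

/-- An edge of `Gr f` different from the edge `x (f (a, x))` is an edge of `Off Δ₀ f (a, x)`. -/
private theorem gr_off {C n Δ₀ g : ℕ} (f : Fin C × Fin n → Fin n) {a : Fin C} {x c d : Fin n}
    (hne : s(c, d) ≠ s(x, f (a, x))) (h : Gr Δ₀ g f c d) : Off Δ₀ f (a, x) c d := by
  rcases h with h | ⟨h1, h2, a', -, h4⟩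
  · exact Or.inl h
  · refine Or.inr ⟨h1, (Set.ncard_le_ncard ?_ (Set.toFinite _)).trans h2, a', ?_, h4⟩
    · exact fun k hk => hk.2
    · intro h5
      obtain ⟨rfl, rfl⟩ := Prod.mk.inj h5
      exact hne (by rw [h4])

private theorem und_adj {V : Type} (E : V → V → Prop) (x y : V) :
    (und E).Adj x y ↔ x ≠ y ∧ (E x y ∨ E y x) := SimpleGraph.fromRel_adj E x y

/-- The first step of a short cycle which starts at its largest vertex goes one step down. -/
private theorem cyc_snd {C n Δ₀ g : ℕ} (f : Fin C × Fin n → Fin n) {x : Fin n}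
    (w : (und (Gr Δ₀ g f)).Walk x x) (hw : w.IsCycle) (hg : w.length ≤ g)
    (hmax : ∀ z ∈ w.support, z ≤ x) : w.snd.val + 1 = x.val := by
  cases w with
  | nil => exact (hw.ne_nil rfl).elim
  | @cons _ y _ h p =>
    rw [SimpleGraph.Walk.snd_cons]
    rw [SimpleGraph.Walk.cons_isCycle_iff] at hw
    have hy : y ≤ x := hmax y (by
      rw [SimpleGraph.Walk.support_cons]
      exact List.mem_cons_of_mem _ p.start_mem_support)
    obtain ⟨hxy, hE⟩ := (und_adj _ _ _).mp h
    have hlt : y.val < x.val := lt_of_le_of_ne hy (fun h5 => hxy (Fin.ext h5.symm))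
    rcases hE with hE | hE
    · rcases hE with h1 | ⟨h1, h2, a, h3, h4⟩
      · omega
      · exfalso
        apply h3
        have hp : ∀ e ∈ p.edges, e ∈ (und (Off Δ₀ f (a, x))).edgeSet := by
          intro e he
          induction e using Sym2.ind with
          | _ c d =>
            have h5 : s(c, d) ≠ s(x, f (a, x)) := by
              rw [h4]
              intro h6
              exact hw.2 (h6 ▸ he)
            have h5' : s(d, c) ≠ s(x, f (a, x)) := by
              rw [Sym2.eq_swap]
              exact h5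
            have h7 := p.adj_of_mem_edges he
            rw [und_adj] at h7
            rw [SimpleGraph.mem_edgeSet, und_adj]
            exact ⟨h7.1, h7.2.imp (gr_off f h5) (gr_off f h5')⟩
        refine ⟨x, rfl, ((p.transfer _ hp).reverse).copy rfl h4.symm, ?_⟩
        rw [SimpleGraph.Walk.length_copy, SimpleGraph.Walk.length_reverse,
          SimpleGraph.Walk.length_transfer]
        rw [SimpleGraph.Walk.length_cons] at hg
        omega
    · rcases hE with h1 | ⟨h1, -⟩
      · omega
      · omega

theorem gr_noShort {C n Δ₀ g : ℕ} (f : Fin C × Fin n → Fin n) : NoShort (und (Gr Δ₀ g f)) g := by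
  classical
  intro u w hw
  by_contra hlen
  have hlen' : w.length ≤ g := not_lt.mp hlen
  have hne : w.support.toFinset.Nonempty := ⟨u, by simp⟩
  set x := w.support.toFinset.max' hne with hx
  have hxm : x ∈ w.support := by
    have := Finset.max'_mem _ hne
    rw [← hx] at this
    simpa using this
  have hmax : ∀ z ∈ w.support, z ≤ x := by
    intro z hz
    exact Finset.le_max' _ z (by simpa using hz)
  have hc : (w.rotate x hxm).IsCycle := (SimpleGraph.Walk.isCycle_rotate hxm).mpr hw
  have h1 := cyc_snd f (w.rotate x hxm) hc (by rw [SimpleGraph.Walk.length_rotate]; exact hlen')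
    (fun z hz => hmax z (by rwa [SimpleGraph.Walk.mem_support_rotate_iff] at hz))
  have h2 := cyc_snd f (w.rotate x hxm).reverse hc.reverse
    (by rw [SimpleGraph.Walk.length_reverse, SimpleGraph.Walk.length_rotate]; exact hlen')
    (fun z hz => hmax z (by
      rw [SimpleGraph.Walk.support_reverse, List.mem_reverse,
        SimpleGraph.Walk.mem_support_rotate_iff] at hz
      exact hz))
  rw [SimpleGraph.Walk.snd_reverse] at h2
  exact hc.snd_ne_penultimate (Fin.ext (by omega))

theorem gr_deg {C n Δ₀ g : ℕ} (f : Fin C × Fin n → Fin n) (x : Fin n) :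
    Set.ncard {y | (und (Gr Δ₀ g f)).Adj x y} ≤ Δ₀ + C + 2 := by
  classical
  let A1 : Set (Fin n) := {y | y.val = x.val + 1}
  let A2 : Set (Fin n) := {y | y.val + 1 = x.val}
  let B : Set (Fin n) := Set.range fun a => f (a, x)
  let D : Set (Fin n) := {y | Set.ncard {k | f k = x} ≤ Δ₀ ∧ ∃ a, f (a, y) = x}
  have hA1 : A1.ncard ≤ 1 := by
    rw [Set.ncard_le_one (Set.toFinite _)]
    intro y hy z hz
    have h1 : y.val = x.val + 1 := hy
    have h2 : z.val = x.val + 1 := hz
    exact Fin.ext (by omega)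
  have hA2 : A2.ncard ≤ 1 := by
    rw [Set.ncard_le_one (Set.toFinite _)]
    intro y hy z hz
    have h1 : y.val + 1 = x.val := hy
    have h2 : z.val + 1 = x.val := hz
    exact Fin.ext (by omega)
  have hB : B.ncard ≤ C := by
    have h1 : B = (fun a => f (a, x)) '' (Set.univ : Set (Fin C)) := Set.image_univ.symm
    rw [h1]
    refine (Set.ncard_image_le (Set.toFinite _)).trans ?_
    rw [Set.ncard_univ, Nat.card_eq_fintype_card, Fintype.card_fin]
  have hD : D.ncard ≤ Δ₀ := by
    by_cases h1 : Set.ncard {k | f k = x} ≤ Δ₀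
    · refine le_trans ?_ h1
      have h2 : D ⊆ Prod.snd '' {k | f k = x} := by
        rintro y ⟨-, a, ha⟩
        exact ⟨(a, y), ha, rfl⟩
      exact (Set.ncard_le_ncard h2 (Set.toFinite _)).trans (Set.ncard_image_le (Set.toFinite _))
    · have h2 : D = ∅ := by
        ext y
        simp only [Set.mem_empty_iff_false, iff_false]
        exact fun h3 => h1 h3.1
      rw [h2, Set.ncard_empty]
      exact Nat.zero_le _
  have hsub : {y | (und (Gr Δ₀ g f)).Adj x y} ⊆ ((A1 ∪ A2) ∪ B) ∪ D := by
    intro y hy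
    have hy' : (und (Gr Δ₀ g f)).Adj x y := hy
    rw [und_adj] at hy'
    rcases hy'.2 with h | h
    · rcases h with h | ⟨-, -, a, -, h⟩
      · exact Or.inl (Or.inl (Or.inl h))
      · exact Or.inl (Or.inr ⟨a, h⟩)
    · rcases h with h | ⟨-, h1, a, -, h⟩
      · exact Or.inl (Or.inl (Or.inr h.symm))
      · exact Or.inr ⟨h1, a, h⟩
  have h1 := Set.ncard_le_ncard hsub (Set.toFinite _)
  have h2 := Set.ncard_union_le ((A1 ∪ A2) ∪ B) D
  have h3 := Set.ncard_union_le (A1 ∪ A2) B
  have h4 := Set.ncard_union_le A1 A2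
  omega

theorem gr_exp {C n k b g : ℕ} (hk : 1 ≤ k) (hC : 1 ≤ C) (hn : 3 * k * (b + 2) ≤ n)
    (f : Fin C × Fin n → Fin n)
    (hf : ¬ ∃ X Y : Finset (Fin n), n ≤ (3 * k) * X.card ∧ n ≤ (3 * k) * Y.card ∧
      ∀ a, ∀ x ∈ X, f (a, x) ∉ Y)
    (hb : Set.ncard {p | BadKey (3 * k * C) g f p} ≤ b) (X Y : Set (Fin n))
    (hX : n ≤ k * X.ncard) (hY : n ≤ k * Y.ncard) (hXY : ∀ x ∈ X, ∀ y ∈ Y, y < x) :
    ∃ x ∈ X, ∃ y ∈ Y, Gr (3 * k * C) g f x y := by
  classical
  have hkpos : 0 < 3 * k := by omega
  -- the heavy targets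
  let H : Finset (Fin n) := Finset.univ.filter fun y => 3 * k * C < Set.ncard {k' | f k' = y}
  have hdeg : ∀ y, Set.ncard {k' | f k' = y} = (Finset.univ.filter fun k' => f k' = y).card := by
    intro y
    rw [← Set.ncard_coe_finset]
    congr 1
    ext k'
    simp
  have hsum : ∑ y, Set.ncard {k' | f k' = y} = C * n := by
    have h1 := Finset.card_eq_sum_card_fiberwise (f := f) (s := Finset.univ) (t := Finset.univ)
      (fun _ _ => Finset.mem_coe.mpr (Finset.mem_univ _))
    rw [Finset.card_univ, Fintype.card_prod, Fintype.card_fin, Fintype.card_fin] at h1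
    rw [h1]
    exact Finset.sum_congr rfl fun y _ => hdeg y
  have hH : 3 * k * H.card ≤ n := by
    have h1 : H.card * (3 * k * C) ≤ ∑ y ∈ H, Set.ncard {k' | f k' = y} := by
      have := Finset.card_nsmul_le_sum H (fun y => Set.ncard {k' | f k' = y}) (3 * k * C)
        (fun y hy => ((Finset.mem_filter.mp hy).2).le)
      rwa [smul_eq_mul] at this
    have h2 : ∑ y ∈ H, Set.ncard {k' | f k' = y} ≤ ∑ y, Set.ncard {k' | f k' = y} :=
      Finset.sum_le_sum_of_subset (Finset.subset_univ _)
    rw [hsum] at h2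
    have h3 : C * (3 * k * H.card) ≤ C * n := by
      calc C * (3 * k * H.card) = H.card * (3 * k * C) := by ring
        _ ≤ C * n := h1.trans h2
    exact Nat.le_of_mul_le_mul_left h3 (by omega)
  -- the bad sources
  let Bd : Set (Fin n) := Prod.snd '' {p | BadKey (3 * k * C) g f p}
  have hBd : Bd.ncard ≤ b := (Set.ncard_image_le (Set.toFinite _)).trans hb
  have hnpos : 0 < n := by
    have : 0 < 3 * k * (b + 2) := Nat.mul_pos hkpos (by omega)
    omega
  have hXne : X.Nonempty := by
    rw [Set.nonempty_iff_ne_empty]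
    rintro rfl
    rw [Set.ncard_empty, mul_zero] at hX
    omega
  obtain ⟨m, hm, hmin⟩ := Set.exists_min_image X id (Set.toFinite _) hXne
  let X' : Set (Fin n) := (X \ {m}) \ Bd
  let Y' : Set (Fin n) := Y \ (H : Set (Fin n))
  have hX' : X.ncard ≤ X'.ncard + (b + 1) := by
    have h1 := Set.le_ncard_sdiff Bd (X \ {m}) (Set.toFinite _)
    have h2 := Set.pred_ncard_le_ncard_sdiff_singleton X m
    have h3 : X'.ncard = ((X \ {m}) \ Bd).ncard := rfl
    omega
  have hY' : Y.ncard ≤ Y'.ncard + H.card := by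
    have h1 := Set.le_ncard_sdiff (H : Set (Fin n)) Y (Set.toFinite _)
    rw [Set.ncard_coe_finset] at h1
    have h3 : Y'.ncard = (Y \ (H : Set (Fin n))).ncard := rfl
    omega
  have hX2 : n ≤ 3 * k * X'.ncard := by
    have h1 : 3 * n ≤ 3 * k * X'.ncard + 3 * k * (b + 1) := by
      calc 3 * n ≤ 3 * (k * X.ncard) := Nat.mul_le_mul_left _ hX
        _ = 3 * k * X.ncard := by ring
        _ ≤ 3 * k * (X'.ncard + (b + 1)) := Nat.mul_le_mul_left _ hX'
        _ = _ := by ring
    have h2 : 3 * k * (b + 1) ≤ n := (Nat.mul_le_mul_left _ (by omega)).trans hn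
    omega
  have hY2 : n ≤ 3 * k * Y'.ncard := by
    have h1 : 3 * n ≤ 3 * k * Y'.ncard + 3 * k * H.card := by
      calc 3 * n ≤ 3 * (k * Y.ncard) := Nat.mul_le_mul_left _ hY
        _ = 3 * k * Y.ncard := by ring
        _ ≤ 3 * k * (Y'.ncard + H.card) := Nat.mul_le_mul_left _ hY'
        _ = _ := by ring
    omega
  by_contra hcon
  push Not at hcon
  apply hf
  refine ⟨(Set.toFinite X').toFinset, (Set.toFinite Y').toFinset, ?_, ?_, ?_⟩
  · rwa [← Set.ncard_eq_toFinset_card]
  · rwa [← Set.ncard_eq_toFinset_card]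
  · intro a x hx hy
    rw [Set.Finite.mem_toFinset] at hx hy
    obtain ⟨⟨hxX, hxm⟩, hxB⟩ := hx
    obtain ⟨hyY, hyH⟩ := hy
    refine hcon x hxX (f (a, x)) hyY (Or.inr ⟨?_, ?_, a, ?_, rfl⟩)
    · have h1 : f (a, x) < m := hXY m hm _ hyY
      have h2 : m < x := lt_of_le_of_ne (hmin x hxX) (fun h => hxm h.symm)
      have h1' : (f (a, x)).val < m.val := h1
      have h2' : m.val < x.val := h2
      omega
    · by_contra h1
      exact hyH (Finset.mem_coe.mpr (Finset.mem_filter.mpr ⟨Finset.mem_univ _, not_le.mp h1⟩))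
    · intro h1
      exact hxB ⟨(a, x), h1, rfl⟩

end Pool.Agent.MIP
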