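import Pool.Agent.Lib.MP_d404e6_lc.Rand1
import Pool.Agent.Lib.MP_d404e6_lc.Rand3

/-!
# The graph

`C` from `exists_C (3 * k)` (enlarge it to be at least one: `C` can be taken `≥ 1` because for
`C = 0` the inequality reads `8 ^ (3 * k) ≤ 1`, which is false), `Δ₀ = 3 * k * C`,
`Δ = Δ₀ + C + 2`. Given `g`, let `W = (Δ₀ + C + 3) ^ g`, `b = 2 * C * W`,
`n₀ = 3 * k * (b + 2) + 1`. For `n ≥ n₀` there is a function `f` which satisfies the hypotheses
`hf` and `hb` of `gr_exp`: by `exp_count` (with `3 * k` for `k`) at most half of the functions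
violate the first, and by `bad_count` the number of functions with more than `b` bad keys is at
most `C * W * n ^ (C * n) / (b + 1)`, less than half of all.
-/

namespace Pool.Agent.MIP

private theorem exists_fun {C k n W : ℕ} (Δ₀ g : ℕ) (hn : 1 ≤ n) (hC : 1 ≤ C)
    (hW : W = (Δ₀ + C + 3) ^ g)
    (hexp : Nat.card {f : Fin C × Fin n → Fin n // ∃ X Y : Finset (Fin n), n ≤ k * X.card ∧
      n ≤ k * Y.card ∧ ∀ a, ∀ x ∈ X, f (a, x) ∉ Y} * 2 ^ n ≤ n ^ (C * n)) :
    ∃ f : Fin C × Fin n → Fin n, (¬ ∃ X Y : Finset (Fin n), n ≤ k * X.card ∧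
      n ≤ k * Y.card ∧ ∀ a, ∀ x ∈ X, f (a, x) ∉ Y) ∧
      Set.ncard {p | BadKey Δ₀ g f p} ≤ 2 * C * W := by
  classical
  set P : (Fin C × Fin n → Fin n) → Prop := fun f => ∃ X Y : Finset (Fin n), n ≤ k * X.card ∧
      n ≤ k * Y.card ∧ ∀ a, ∀ x ∈ X, f (a, x) ∉ Y with hP
  set A1 : Finset (Fin C × Fin n → Fin n) := Finset.univ.filter P with hA1
  set A2 : Finset (Fin C × Fin n → Fin n) :=
    Finset.univ.filter (fun f => 2 * C * W < Set.ncard {p | BadKey Δ₀ g f p}) with hA2
  set T := n ^ (C * n) with hT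
  have hTpos : 1 ≤ T := Nat.one_le_pow _ _ hn
  have hcardT : (Finset.univ : Finset (Fin C × Fin n → Fin n)).card = T := by
    rw [Finset.card_univ, Fintype.card_fun, Fintype.card_prod, Fintype.card_fin, Fintype.card_fin]
  have h1 : A1.card * 2 ≤ T := by
    have e1 : Nat.card {f : Fin C × Fin n → Fin n // P f} = A1.card := by
      rw [Nat.card_eq_fintype_card, Fintype.card_subtype]
    rw [e1] at hexp
    have e2 : 2 ≤ 2 ^ n := by
      calc 2 = 2 ^ 1 := (pow_one 2).symm
        _ ≤ 2 ^ n := Nat.pow_le_pow_right (by norm_num) hn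
    exact (Nat.mul_le_mul_left _ e2).trans hexp
  have h2 : (2 * C * W + 1) * A2.card ≤ C * W * T := by
    have e1 := bad_count C n Δ₀ g hn hC
    set Q : Finset ((Fin C × Fin n → Fin n) × (Fin C × Fin n)) :=
      Finset.univ.filter (fun q => BadKey Δ₀ g q.1 q.2) with hQ
    have e2 : Nat.card {q : (Fin C × Fin n → Fin n) × (Fin C × Fin n) // BadKey Δ₀ g q.1 q.2} =
        Q.card := by
      rw [Nat.card_eq_fintype_card, Fintype.card_subtype]
    have e3 : (2 * C * W + 1) * A2.card ≤ Q.card := by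
      have e4 : Q.card = ∑ f : Fin C × Fin n → Fin n, (Q.filter (fun q => q.1 = f)).card :=
        Finset.card_eq_sum_card_fiberwise (fun q _ => Finset.mem_univ q.1)
      have e5 : ∑ f ∈ A2, (Q.filter (fun q => q.1 = f)).card ≤
          ∑ f : Fin C × Fin n → Fin n, (Q.filter (fun q => q.1 = f)).card :=
        Finset.sum_le_sum_of_subset (Finset.subset_univ _)
      have e6 : A2.card * (2 * C * W + 1) ≤ ∑ f ∈ A2, (Q.filter (fun q => q.1 = f)).card := by
        rw [← smul_eq_mul]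
        refine Finset.card_nsmul_le_sum A2 _ _ ?_
        intro f hf
        have e7 : 2 * C * W < Set.ncard {p | BadKey Δ₀ g f p} := (Finset.mem_filter.1 hf).2
        have e8 : Set.ncard {p | BadKey Δ₀ g f p} ≤ (Q.filter (fun q => q.1 = f)).card := by
          rw [← Set.ncard_coe_finset]
          refine Set.ncard_le_ncard_of_injOn (fun p => (f, p)) ?_ ?_ (Set.toFinite _)
          · intro p hp
            have hp' : BadKey Δ₀ g f p := hp
            exact Finset.mem_coe.2 (Finset.mem_filter.2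
              ⟨Finset.mem_filter.2 ⟨Finset.mem_univ _, hp'⟩, rfl⟩)
          · intro p _ p' _ hpp
            exact (Prod.mk.inj hpp).2
        omega
      rw [mul_comm, e4]
      exact e6.trans e5
    have e9 : (C * n) * (n ^ (C * n - 1) * W) = C * W * T := by
      have e10 : n * n ^ (C * n - 1) = T := by
        rw [hT, mul_comm, ← pow_succ]
        congr 1
        have : 1 ≤ C * n := Nat.mul_pos hC hn
        omega
      rw [← e10]
      ring
    rw [← hW, e2, e9] at e1
    exact e3.trans e1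
  have h3 : 2 * A2.card < T := by
    by_contra hcon
    push Not at hcon
    have e1 : C * W * T ≤ C * W * (2 * A2.card) := Nat.mul_le_mul_left _ hcon
    have e2 : (2 * C * W + 1) * A2.card = C * W * (2 * A2.card) + A2.card := by ring
    rw [e2] at h2
    have e3 : A2.card = 0 := by omega
    rw [e3] at hcon
    omega
  have h4 : (A1 ∪ A2).card < (Finset.univ : Finset (Fin C × Fin n → Fin n)).card := by
    rw [hcardT]
    have := Finset.card_union_le A1 A2
    omega
  obtain ⟨f, -, hf⟩ := Finset.exists_mem_notMem_of_card_lt_card h4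
  rw [Finset.mem_union, not_or] at hf
  refine ⟨f, ?_, ?_⟩
  · intro h
    exact hf.1 (Finset.mem_filter.2 ⟨Finset.mem_univ _, h⟩)
  · by_contra h
    push Not at h
    exact hf.2 (Finset.mem_filter.2 ⟨Finset.mem_univ _, h⟩)

theorem exists_graph (k : ℕ) (hk : 1 ≤ k) : ∃ Δ : ℕ, ∀ g : ℕ, ∃ n₀ : ℕ, ∀ n ≥ n₀,
    ∃ E : Fin n → Fin n → Prop,
      (∀ x y : Fin n, y.val = x.val + 1 → E x y) ∧
      (∀ x y : Fin n, E x y → y.val = x.val + 1 ∨ y.val + 1 < x.val) ∧
      NoShort (und E) g ∧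
      (∀ x, Set.ncard {y | (und E).Adj x y} ≤ Δ) ∧
      ∀ X Y : Set (Fin n), n ≤ k * X.ncard → n ≤ k * Y.ncard → (∀ x ∈ X, ∀ y ∈ Y, y < x) →
        ∃ x ∈ X, ∃ y ∈ Y, E x y := by
  obtain ⟨C, hC⟩ := exists_C (3 * k) (by omega)
  have hC1 : 1 ≤ C := by
    rcases Nat.eq_zero_or_pos C with h | h
    · subst h
      rw [pow_zero, pow_zero, one_mul] at hC
      have h1 : 8 ^ 1 ≤ 8 ^ (3 * k) := Nat.pow_le_pow_right (by norm_num) (by omega)
      omega
    · exact h
  refine ⟨3 * k * C + C + 2, fun g => ⟨3 * k * (2 * C * (3 * k * C + C + 3) ^ g + 2) + 1,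
    fun n hn => ?_⟩⟩
  have hn1 : 1 ≤ n := by omega
  obtain ⟨f, hf, hb⟩ := exists_fun (C := C) (k := 3 * k) (n := n) (3 * k * C) g hn1 hC1 rfl
    (exp_count C (3 * k) n (by omega) hC)
  refine ⟨Gr (3 * k * C) g f, fun x y h => Or.inl h, ?_, gr_noShort f, gr_deg f, ?_⟩
  · rintro x y (h | h)
    · exact Or.inl h
    · exact Or.inr h.1
  · intro X Y hX hY hXY
    exact gr_exp hk hC1 (by omega) f hf hb X Y hX hY hXY

end Pool.Agent.MIP
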