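import Pool.Agent.Lib.MP_d404e6_lc.Unnoticed
import Pool.Agent.Lib.MP_d404e6_lc.Ball
import Pool.Agent.Lib.MP_d404e6_lc.Gap
import Pool.Agent.Lib.MP_d404e6_lc.BadI
import Pool.Agent.Lib.MP_d404e6_lc.Graph

/-!
# For most path edges the deletion is not noticed

Put `t = 2 ^ (q + 1) + 2`, `dm = 2 ^ q`, `D = 2 ^ (q + 1)`, `B = 2 ^ (q + 1) + 1`,
`T = Nat.card (Ty κ t dm)`, `k = 16 * K * (T + 1) * (t + 1)`, `Δ` from `exists_graph k`,
`Φ m = 2 ^ (T * m) * D + T * m` (bound for `S₀.ncard` from `closure` when there are at most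
`T * m` rare points), `M 0 = 0`, `M (j + 1) = max (M j) ((Φ (M j) + B) * (Δ + 1) ^ (2 ^ q))`,
`g = 2 ^ (T * M (T + 1)) * D`, `n` large.
`cond_count`: for every colouring: `j` from `gap` with `f = tp t E col dm`; rare points: classes
with at most `M j` elements, at most `T * M j` of them (`rare_ncard`), `S₀` from `closure` with
`a = T * M j`, `S₀.ncard ≤ Φ (M j)`. `freq`: a class of a point outside `S₀` has more than
`M (j + 1) ≥ (S₀.ncard + B) * (Δ + 1) ^ (2 ^ q)` elements, more than there are near a set `S` with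
`S.ncard ≤ S₀.ncard + B` (`ball_ncard`). The deletion of the edge `i → i + 1` is not noticed
(`unnoticed`) unless `i` is counted in `bad_total` (with `m = (n + 1) / k + 1`) or `i.castSucc` or
`i.succ` is at distance at most `2 ^ q + 1` from `S₀` (at most
`2 * Φ (M T) * (Δ + 1) ^ (2 ^ q + 1)` indices, `Φ` and `M` are monotone, `j ≤ T`).
Total: `T * 4 * (t + 1) * ((n + 1) / k + 1) + const ≤ n / K` for large `n`.
-/

namespace Pool.Agent.MIP

private def coreM (T D B Δ e : ℕ) : ℕ → ℕ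
  | 0 => 0
  | j + 1 => max (coreM T D B Δ e j)
      ((2 ^ (T * coreM T D B Δ e j) * D + T * coreM T D B Δ e j + B) * (Δ + 1) ^ e)

private theorem coreM_mono (T D B Δ e : ℕ) : Monotone (coreM T D B Δ e) :=
  monotone_nat_of_le_succ fun j => by
    rw [coreM]
    exact le_max_left _ _

private theorem core_count (κ : Type) [Finite κ] (q : ℕ) {n Δ m : ℕ}
    {E : Fin (n + 1) → Fin (n + 1) → Prop}
    (h1 : ∀ x y : Fin (n + 1), y.val = x.val + 1 → E x y)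
    (h2 : ∀ x y : Fin (n + 1), E x y → y.val = x.val + 1 ∨ y.val + 1 < x.val)
    (hg : NoShort (und E) (2 ^ (Nat.card (Ty κ (2 ^ (q + 1) + 2) (2 ^ q)) *
      coreM (Nat.card (Ty κ (2 ^ (q + 1) + 2) (2 ^ q))) (2 ^ (q + 1)) (2 ^ (q + 1) + 1) Δ (2 ^ q)
        (Nat.card (Ty κ (2 ^ (q + 1) + 2) (2 ^ q)))) * 2 ^ (q + 1)))
    (hdeg : ∀ x, Set.ncard {y | (und E).Adj x y} ≤ Δ)
    (hE : ∀ X Y : Set (Fin (n + 1)), m ≤ X.ncard → m ≤ Y.ncard → (∀ x ∈ X, ∀ y ∈ Y, y < x) →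
      ∃ x ∈ X, ∃ y ∈ Y, E x y) (col : Fin (n + 1) → κ) :
    Set.ncard {i : Fin n | ¬ BF q E (del E i.castSucc i.succ) col} ≤
      Nat.card (Ty κ (2 ^ (q + 1) + 2) (2 ^ q)) * (4 * ((2 ^ (q + 1) + 2 + 1) * m)) +
      2 * ((2 ^ (Nat.card (Ty κ (2 ^ (q + 1) + 2) (2 ^ q)) *
      coreM (Nat.card (Ty κ (2 ^ (q + 1) + 2) (2 ^ q))) (2 ^ (q + 1)) (2 ^ (q + 1) + 1) Δ (2 ^ q)
        (Nat.card (Ty κ (2 ^ (q + 1) + 2) (2 ^ q)))) * 2 ^ (q + 1) +
        Nat.card (Ty κ (2 ^ (q + 1) + 2) (2 ^ q)) *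
      coreM (Nat.card (Ty κ (2 ^ (q + 1) + 2) (2 ^ q))) (2 ^ (q + 1)) (2 ^ (q + 1) + 1) Δ (2 ^ q)
        (Nat.card (Ty κ (2 ^ (q + 1) + 2) (2 ^ q)))) * (Δ + 1) ^ (2 ^ q + 1)) := by
  set t := 2 ^ (q + 1) + 2 with ht
  set T := Nat.card (Ty κ t (2 ^ q)) with hT
  set D := 2 ^ (q + 1) with hD
  set M := coreM T D (D + 1) Δ (2 ^ q) with hM
  have hMm : Monotone M := coreM_mono _ _ _ _ _
  have hD1 : 1 ≤ D := Nat.one_le_two_pow
  have hasym : ∀ x y, E x y → ¬ E y x := by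
    intro x y hxy hyx
    have h3 := h2 x y hxy
    have h4 := h2 y x hyx
    omega
  obtain ⟨j, hj, hgap⟩ := gap (tp t E col (2 ^ q)) M (fun j => hMm (Nat.le_succ j))
  have hjT : M j ≤ M T := hMm hj
  have hrare := rare_ncard (tp t E col (2 ^ q)) (M j)
  have hgj : NoShort (und E) (2 ^ (T * M j) * D) := by
    intro u w hw
    refine lt_of_le_of_lt ?_ (hg u w hw)
    gcongr
    norm_num
  obtain ⟨S₀, hAS, hcl, hcard⟩ := closure (T * M j) D _ hD1 hgj hrare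
  have hScard : S₀.ncard ≤ 2 ^ (T * M j) * D + T * M j := by omega
  have hScard' : S₀.ncard ≤ 2 ^ (T * M T) * D + T * M T := by
    refine hScard.trans ?_
    gcongr
    norm_num
  have hgD : NoShort (und E) (2 ^ (q + 1)) := by
    intro u w hw
    refine lt_of_le_of_lt ?_ (hg u w hw)
    exact Nat.le_mul_of_pos_left _ (Nat.pow_pos (by norm_num))
  have hfreq : ∀ x, x ∉ S₀ → ∀ S : Set (Fin (n + 1)), S.ncard ≤ S₀.ncard + 2 ^ (q + 1) + 1 →
      ∃ y, tp t E col (2 ^ q) y = tp t E col (2 ^ q) x ∧ ¬ Near (und E) (2 ^ q) S y := by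
    intro x hx S hS
    by_contra hcon
    push Not at hcon
    have hbig : M (j + 1) < Set.ncard {v | tp t E col (2 ^ q) v = tp t E col (2 ^ q) x} := by
      rcases hgap (tp t E col (2 ^ q) x) with h3 | h3
      · exact absurd (hAS h3) hx
      · exact h3
    have h3 : Set.ncard {v | tp t E col (2 ^ q) v = tp t E col (2 ^ q) x} ≤
        S.ncard * (Δ + 1) ^ (2 ^ q) :=
      (Set.ncard_le_ncard (fun v hv => hcon v hv) (Set.toFinite _)).trans
        (ball_ncard hdeg (2 ^ q) S)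
    have h4 : S.ncard * (Δ + 1) ^ (2 ^ q) ≤ M (j + 1) := by
      have h5 : M (j + 1) = max (M j) ((2 ^ (T * M j) * D + T * M j + (D + 1)) *
        (Δ + 1) ^ (2 ^ q)) := rfl
      rw [h5]
      refine le_trans ?_ (le_max_right _ _)
      exact Nat.mul_le_mul_right _ (by omega)
    omega
  have hball : ∀ f : Fin n → Fin (n + 1), Function.Injective f →
      Set.ncard {i : Fin n | Near (und E) (2 ^ q + 1) S₀ (f i)} ≤
        (2 ^ (T * M T) * D + T * M T) * (Δ + 1) ^ (2 ^ q + 1) := by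
    intro f hf
    have h3 : Set.ncard {i : Fin n | Near (und E) (2 ^ q + 1) S₀ (f i)} ≤
        Set.ncard {y | Near (und E) (2 ^ q + 1) S₀ y} :=
      Set.ncard_le_ncard_of_injOn f (fun i hi => hi) hf.injOn (Set.toFinite _)
    refine h3.trans ((ball_ncard hdeg (2 ^ q + 1) S₀).trans ?_)
    exact Nat.mul_le_mul_right _ hScard'
  have hsub : {i : Fin n | ¬ BF q E (del E i.castSucc i.succ) col} ⊆
      {i : Fin n | Set.ncard {w | E i.castSucc w ∧ tp t E col (2 ^ q) w =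
        tp t E col (2 ^ q) i.succ} ≤ t ∨
        Set.ncard {w | E w i.succ ∧ tp t E col (2 ^ q) w = tp t E col (2 ^ q) i.castSucc} ≤ t} ∪
      ({i : Fin n | Near (und E) (2 ^ q + 1) S₀ i.castSucc} ∪
        {i : Fin n | Near (und E) (2 ^ q + 1) S₀ i.succ}) := by
    intro i hi
    by_contra hcon
    simp only [Set.mem_union, Set.mem_ofPred_eq, not_or, not_le] at hcon
    refine hi (unnoticed q (h1 _ _ (by simp)) hasym hgD hcl hcon.2.1 hcon.2.2 hcon.1.1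
      hcon.1.2 hfreq)
  have hbt := bad_total hE (tp t E col (2 ^ q)) t
  have h5 := hball _ (Fin.castSucc_injective n)
  have h6 := hball _ (Fin.succ_injective n)
  have h7 := (Set.ncard_le_ncard hsub (Set.toFinite _)).trans
    ((Set.ncard_union_le _ _).trans (Nat.add_le_add_left (Set.ncard_union_le _ _) _))
  rw [← hT] at hbt
  omega

theorem core (κ : Type) [Finite κ] (q K : ℕ) (hK : 1 ≤ K) : ∃ n₀ : ℕ, ∀ n ≥ n₀,
    ∃ E : Fin (n + 1) → Fin (n + 1) → Prop,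
      (∀ x y : Fin (n + 1), y.val = x.val + 1 → E x y) ∧
      (∀ x y : Fin (n + 1), E x y → y.val = x.val + 1 ∨ y.val + 1 < x.val) ∧
      ∀ col : Fin (n + 1) → κ,
        K * Set.ncard {i : Fin n | ¬ BF q E (del E i.castSucc i.succ) col} ≤ n := by
  obtain ⟨t, ht⟩ : ∃ t, t = 2 ^ (q + 1) + 2 := ⟨_, rfl⟩
  obtain ⟨T, hT⟩ : ∃ T, T = Nat.card (Ty κ t (2 ^ q)) := ⟨_, rfl⟩
  obtain ⟨k, hk⟩ : ∃ k, k = 16 * K * (T + 1) * (t + 1) := ⟨_, rfl⟩
  have hk1 : 1 ≤ k := by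
    rw [hk]
    exact Nat.one_le_iff_ne_zero.2 (by positivity)
  obtain ⟨Δ, hΔ⟩ := exists_graph k hk1
  obtain ⟨G, hG⟩ : ∃ G, G = 2 ^ (T * coreM T (2 ^ (q + 1)) (2 ^ (q + 1) + 1) Δ (2 ^ q) T) *
      2 ^ (q + 1) := ⟨_, rfl⟩
  obtain ⟨n₁, hn₁⟩ := hΔ G
  obtain ⟨C, hC⟩ : ∃ C, C = (G + T * coreM T (2 ^ (q + 1)) (2 ^ (q + 1) + 1) Δ (2 ^ q) T) *
      (Δ + 1) ^ (2 ^ q + 1) := ⟨_, rfl⟩
  refine ⟨n₁ + 1 + 4 * (4 * K * T * (t + 1) + 2 * K * C), fun n hn => ?_⟩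
  obtain ⟨E, h1, h2, h3, h4, h5⟩ := hn₁ (n + 1) (by omega)
  refine ⟨E, h1, h2, fun col => ?_⟩
  have hm : ∀ x : ℕ, (n + 1) / k + 1 ≤ x → n + 1 ≤ k * x := by
    intro x hx
    have h6 : n + 1 < k * ((n + 1) / k + 1) := Nat.lt_mul_div_succ _ hk1
    exact h6.le.trans (Nat.mul_le_mul_left _ hx)
  have hE : ∀ X Y : Set (Fin (n + 1)), (n + 1) / k + 1 ≤ X.ncard → (n + 1) / k + 1 ≤ Y.ncard →
      (∀ x ∈ X, ∀ y ∈ Y, y < x) → ∃ x ∈ X, ∃ y ∈ Y, E x y :=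
    fun X Y hX hY h => h5 X Y (hm _ hX) (hm _ hY) h
  subst ht
  subst hT
  subst hG
  have h6 := core_count κ q h1 h2 h3 h4 hE col
  rw [← hC] at h6
  have h7 : K * Set.ncard {i : Fin n | ¬ BF q E (del E i.castSucc i.succ) col} ≤
      K * (Nat.card (Ty κ (2 ^ (q + 1) + 2) (2 ^ q)) *
        (4 * ((2 ^ (q + 1) + 2 + 1) * ((n + 1) / k + 1))) + 2 * C) :=
    Nat.mul_le_mul_left _ h6
  refine h7.trans ?_
  generalize Nat.card (Ty κ (2 ^ (q + 1) + 2) (2 ^ q)) = T at *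
  generalize 2 ^ (q + 1) + 2 = t at *
  obtain ⟨d, hd⟩ : ∃ d, d = (n + 1) / k := ⟨_, rfl⟩
  have h8 : k * d ≤ n + 1 := hd ▸ Nat.mul_div_le _ _
  rw [← hd]
  have h9 : 4 * (4 * K * T * (t + 1)) * d ≤ k * d := by
    refine Nat.mul_le_mul_right _ ?_
    rw [hk]
    nlinarith [Nat.zero_le (K * (t + 1))]
  nlinarith

end Pool.Agent.MIP
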