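import Mathlib

/-!
# Monadic interactive proofs

Definitions for the monadic (set-valued) version of interactive proofs on finite structures:
the messages of both parties are subsets of the universe of the input structure, the private
coins of the verifier are uniformly random subsets, and everything the verifier computes is
first-order definable.
-/

open FirstOrder

namespace Pool.Agent.MIP

/-- Symbols for sets: one unary symbol for every element of `ι` and no other symbol. -/
def SetSym (ι : Type) : ℕ → Type
  | 1 => ι
  | _ => Empty

/-- The language whose only symbols are unary relation symbols, one for every element of `ι`. -/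
def setLang (ι : Type) : FirstOrder.Language.{0, 0} := ⟨fun _ => Empty, SetSym ι⟩

/-- The structure on `V` in which the unary symbol `i` is interpreted by the set `X i`. -/
@[reducible] def setStr {ι V : Type} (X : ι → Set V) : (setLang ι).Structure V where
  funMap := fun {_} f => Empty.elim f
  RelMap := fun {n} =>
    match n with
    | 0 => fun r _ => Empty.elim r
    | 1 => fun i v => v 0 ∈ X i
    | _ + 2 => fun r _ => Empty.elim r

/-- Truth of the first-order formula `φ` in the structure `V` expanded by the sets `X i`. -/
def Holds {L : FirstOrder.Language.{0, 0}} {ι α V : Type} [L.Structure V] (X : ι → Set V)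
    (φ : (L.sum (setLang ι)).Formula α) (v : α → V) : Prop :=
  @FirstOrder.Language.Formula.Realize (L.sum (setLang ι)) V
    (@FirstOrder.Language.sumStructure L (setLang ι) V _ (setStr X)) α φ v

/-- Quantifier rank. -/
def qrank {L : FirstOrder.Language.{0, 0}} {α : Type} : {n : ℕ} → L.BoundedFormula α n → ℕ
  | _, .falsum => 0
  | _, .equal _ _ => 0
  | _, .rel _ _ => 0
  | _, .imp f g => max (qrank f) (qrank g)
  | _, .all f => qrank f + 1

/-- A monadic interactive proof protocol for `L`-structures. The verifier has `coins` private
uniformly random subsets of the universe. In each of the `rounds` rounds it sends `qs` sets,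
defined by the first-order formulas `ask n j l` from the input structure, the coins and the
replies received so far, and the prover answers with `rs` sets. At the end the verifier accepts
if the first-order sentence `accept n` is true in the input structure expanded by the coins and
all replies. The formulas may depend on the number `n` of elements of the input structure in an
arbitrary way, but their quantifier rank is bounded. -/
structure Protocol (L : FirstOrder.Language.{0, 0}) where
  coins : ℕ
  rounds : ℕ
  qs : ℕ
  rs : ℕ
  ask : ℕ → Fin rounds → Fin qs →
    (L.sum (setLang (Fin coins ⊕ Fin rounds × Fin rs))).Formula (Fin 1)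
  accept : ℕ → (L.sum (setLang (Fin coins ⊕ Fin rounds × Fin rs))).Sentence
  rank : ℕ
  ask_rank : ∀ n j l, qrank (ask n j l) ≤ rank
  accept_rank : ∀ n, qrank (accept n) ≤ rank

namespace Protocol

variable {L : FirstOrder.Language.{0, 0}} (P : Protocol L)

/-- A message of the verifier: `qs` subsets of the universe. -/
abbrev Query (V : Type) : Type := Fin P.qs → Set V

/-- A reply of the prover: `rs` subsets of the universe. -/
abbrev Reply (V : Type) : Type := Fin P.rs → Set V

/-- A (computationally unbounded) prover on inputs with universe `V`: the reply as a function of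
the list of all messages of the verifier received so far. -/
abbrev Prover (V : Type) : Type := List (P.Query V) → P.Reply V

/-- Interpretation of the set symbols when the coins are `ρ` and the replies given so far are the
members of the list `W`; the symbols of later replies are interpreted by the empty set. -/
def sets {V : Type} (ρ : Fin P.coins → Set V) (W : List (P.Reply V)) :
    Fin P.coins ⊕ Fin P.rounds × Fin P.rs → Set V
  | .inl i => ρ i
  | .inr (j, l) => (W.getD j (fun _ => ∅)) l

/-- The message sent by the verifier in round `j`. -/
def query {V : Type} [L.Structure V] (ρ : Fin P.coins → Set V) (W : List (P.Reply V))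
    (j : Fin P.rounds) : P.Query V :=
  fun l => {x | Holds (P.sets ρ W) (P.ask (Nat.card V) j l) (fun _ => x)}

/-- The messages and the replies of the first `k` rounds. -/
def play {V : Type} [L.Structure V] (A : P.Prover V) (ρ : Fin P.coins → Set V) :
    ℕ → List (P.Query V) × List (P.Reply V)
  | 0 => ([], [])
  | k + 1 =>
    if h : k < P.rounds then
      ((play A ρ k).1 ++ [P.query ρ (play A ρ k).2 ⟨k, h⟩],
        (play A ρ k).2 ++ [A ((play A ρ k).1 ++ [P.query ρ (play A ρ k).2 ⟨k, h⟩])])
    else play A ρ k

/-- The verifier with coins `ρ` accepts after the interaction with the prover `A`. -/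
def Accepts {V : Type} [L.Structure V] (A : P.Prover V) (ρ : Fin P.coins → Set V) : Prop :=
  Holds (P.sets ρ (P.play A ρ P.rounds).2) (P.accept (Nat.card V)) Empty.elim

/-- The acceptance probability over uniformly random coins. -/
noncomputable def accProb {V : Type} [L.Structure V] (A : P.Prover V) : ℝ :=
  (Nat.card {ρ : Fin P.coins → Set V // P.Accepts A ρ} : ℝ) / Nat.card (Fin P.coins → Set V)

/-- On the finite structures of the class `C` the protocol decides the class `K` with
completeness `c` and soundness error `s`. -/
def Decides (C K : ∀ (V : Type) [L.Structure V], Prop) (c s : ℝ) : Prop :=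
  ∀ (V : Type) [Finite V] [L.Structure V], C V →
    (K V → ∃ A : P.Prover V, c ≤ P.accProb A) ∧ (¬ K V → ∀ A : P.Prover V, P.accProb A ≤ s)

end Protocol

/-- A class of finite structures is in monadic coNP: it is defined by a sentence
`∀ X₁ ... ∀ Xₖ θ` with set variables `Xᵢ` and `θ` first-order. -/
def MonadicCoNP {L : FirstOrder.Language.{0, 0}} (K : ∀ (V : Type) [L.Structure V], Prop) :
    Prop :=
  ∃ (k : ℕ) (θ : (L.sum (setLang (Fin k))).Sentence), ∀ (V : Type) [Finite V] [L.Structure V],
    K V ↔ ∀ X : Fin k → Set V, Holds X θ Empty.elim

/-- Symbols of the language of 3-CNF formulas: for every triple of signs a ternary symbol. -/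
def ClauseSym : ℕ → Type
  | 3 => Bool × Bool × Bool
  | _ => Empty

/-- The language of 3-CNF formulas. A 3-CNF formula is a structure whose elements are the
propositional variables; the symbol `(a, b, c)` holds of `(x, y, z)` if the formula has the clause
`x^a ∨ y^b ∨ z^c`, where `x^true` is `x` and `x^false` is the negation of `x`. -/
def cnf3 : FirstOrder.Language.{0, 0} := ⟨fun _ => Empty, ClauseSym⟩

/-- The clause `x^a ∨ y^b ∨ z^c` belongs to the 3-CNF formula. -/
def HasClause {V : Type} [cnf3.Structure V] (a b c : Bool) (x y z : V) : Prop :=
  FirstOrder.Language.Structure.RelMap (L := cnf3) (n := 3)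
    (show cnf3.Relations 3 from (a, b, c)) ![x, y, z]

/-- The 3-CNF formula is satisfiable: some set `X` of variables, the true ones, satisfies all
clauses. -/
def Satisfiable (V : Type) [cnf3.Structure V] : Prop :=
  ∃ X : Set V, ∀ (a b c : Bool) (x y z : V), HasClause a b c x y z →
    ((x ∈ X ↔ a = true) ∨ (y ∈ X ↔ b = true) ∨ (z ∈ X ↔ c = true))

/-- 3-UNSAT. -/
def Unsat (V : Type) [cnf3.Structure V] : Prop := ¬ Satisfiable V

/-- Implicational formulas: every clause is `x`, or `¬ x`, or an implication `¬ x ∨ y`. Such a
formula is unsatisfiable iff in the directed graph of its implications some `¬ x`-variable can be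
reached from some `x`-variable. -/
def Implicational (V : Type) [cnf3.Structure V] : Prop :=
  ∀ (a b c : Bool) (x y z : V), HasClause a b c x y z →
    (x = y ∧ y = z ∧ a = b ∧ b = c) ∨ (a = false ∧ b = true ∧ c = true ∧ y = z)

/-- The 3-CNF formula of a directed graph with source `s` and target `t`: clauses `s`, `¬ t`, and
`¬ x ∨ y ∨ y` for every edge `x → y`. -/
@[reducible] def cnfOf {V : Type} (E : V → V → Prop) (s t : V) : cnf3.Structure V where
  funMap := fun {_} f => Empty.elim f
  RelMap := fun {n} =>
    match n with
    | 0 => fun r _ => Empty.elim r
    | 1 => fun r _ => Empty.elim r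
    | 2 => fun r _ => Empty.elim r
    | 3 => fun r v =>
        (r = (true, true, true) ∧ v 0 = s ∧ v 1 = s ∧ v 2 = s) ∨
        (r = (false, false, false) ∧ v 0 = t ∧ v 1 = t ∧ v 2 = t) ∨
        (r = (false, true, true) ∧ E (v 0) (v 1) ∧ v 2 = v 1)
    | _ + 4 => fun r _ => Empty.elim r

end Pool.Agent.MIP
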