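import Pool.Agent.Lib.MP_d404e6_lc.Step

/-!
# The extension property

* `Cfg.far`: `x` is not near the domain, in particular `x ∉ S₀` (`diag`). Apply `freq'` to the
  range of `R` (at most `S₀.ncard + N` points): there is `y` with the same type of depth `dm` as
  `x` (first in `E'`, then by `tpeq` across) which is not within distance `r`, so not within
  distance `r' ≤ r`, of the range. Insert `(x, y)`.
* `Cfg.near`: induction on the length `ℓ` of the walk, using `Cfg.step` when the next vertex of the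
  walk is not in the domain; if it is in the domain use the induction hypothesis (after
  `Cfg.weaken`).
* `Cfg.ext`: if `x` is near the domain use `Cfg.near` (weaken the result), otherwise `Cfg.far`.
* `Cfg.ext'`: the same for `E'`, by symmetry.
-/

namespace Pool.Agent.MIP

variable {V κ : Type} [Finite V] {t dm g B r D d N : ℕ} {E E' : V → V → Prop}
    {col : V → κ} {S₀ : Set V} {R : Set (V × V)}

omit [Finite V] in
private theorem near_self {G : SimpleGraph V} {k : ℕ} {S : Set V} {x : V} (hx : x ∈ S) :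
    Near G k S x := ⟨x, hx, SimpleGraph.Walk.nil, Nat.zero_le _⟩

omit [Finite V] in
private theorem near_adj {G : SimpleGraph V} {k : ℕ} (hk : 1 ≤ k) {S : Set V} {s x : V}
    (hs : s ∈ S) (h : G.Adj s x) : Near G k S x :=
  ⟨s, hs, SimpleGraph.Walk.cons h SimpleGraph.Walk.nil, by simpa using hk⟩

omit [Finite V] in
private theorem not_E_of_far {F : V → V → Prop} {k : ℕ}
    (hk : 1 ≤ k) {S : Set V} {s x : V} (hs : s ∈ S) (hx : ¬ Near (und F) k S x) :
    ¬ F x s ∧ ¬ F s x := by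
  have hne : s ≠ x := fun h => hx (near_self (h ▸ hs))
  constructor
  · intro h
    exact hx (near_adj hk hs (by
      rw [SimpleGraph.fromRel_adj]; exact ⟨hne, Or.inr h⟩))
  · intro h
    exact hx (near_adj hk hs (by
      rw [SimpleGraph.fromRel_adj]; exact ⟨hne, Or.inl h⟩))

theorem Cfg.far (hP : Pair t dm g B r E E' col S₀) (h : Cfg t E E' col S₀ D d N R) {r' : ℕ}
    (h1 : 1 ≤ r') (hr : r' ≤ r) (hD : r' ≤ D) (hd : d ≤ dm) (hB : N ≤ B) {x : V}
    (hx : ¬ Near (und E) r' (Prod.fst '' R) x) :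
    ∃ y, Cfg t E E' col S₀ r' d (N + 1) (insert (x, y) R) := by
  have hxS : x ∉ S₀ := fun hxS => hx (near_self ⟨(x, x), h.diag x hxS, rfl⟩)
  have hcard : (Prod.snd '' R).ncard ≤ S₀.ncard + B :=
    (Set.ncard_image_le (Set.toFinite R)).trans (h.card.trans (by omega))
  obtain ⟨y, hy, hyn⟩ := hP.freq' x hxS _ hcard
  have hyn' : ¬ Near (und E') r' (Prod.snd '' R) y := fun hn => hyn (near_mono hr hn)
  have htp : tp t E col d x = tp t E' col d y :=
    tp_le hd ((hP.tpeq dm le_rfl x).trans hy.symm)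
  have hxR : ∀ p ∈ R, x ≠ p.1 := by
    rintro p hp rfl
    exact hx (near_self ⟨p, hp, rfl⟩)
  have hyR : ∀ p ∈ R, y ≠ p.2 := by
    rintro p hp rfl
    exact hyn' (near_self ⟨p, hp, rfl⟩)
  refine ⟨y, ?_⟩
  constructor
  · rintro p (rfl | hp) q (rfl | hq)
    · simp
    · exact ⟨fun e => absurd e (hxR q hq), fun e => absurd e (hyR q hq)⟩
    · exact ⟨fun e => absurd e.symm (hxR p hp), fun e => absurd e.symm (hyR p hp)⟩
    · exact h.inj p hp q hq
  · rintro p (rfl | hp) q (rfl | hq)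
    · exact ⟨fun e => absurd e (hP.asym _ _ e), fun e => absurd e (hP.asym' _ _ e)⟩
    · exact ⟨fun e => absurd e (not_E_of_far h1 (Set.mem_image_of_mem _ hq) hx).1,
        fun e => absurd e (not_E_of_far h1 (Set.mem_image_of_mem _ hq) hyn').1⟩
    · exact ⟨fun e => absurd e (not_E_of_far h1 (Set.mem_image_of_mem _ hp) hx).2,
        fun e => absurd e (not_E_of_far h1 (Set.mem_image_of_mem _ hp) hyn').2⟩
    · exact h.edge p hp q hq
  · rintro p (rfl | hp)
    · exact htp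
    · exact h.typ p hp
  · rw [Set.image_insert_eq]
    exact cl_insert_far (cl_mono hD h.cl) hx
  · rw [Set.image_insert_eq]
    exact cl_insert_far (cl_mono hD h.cl') hyn'
  · intro z hz
    exact Or.inr (h.diag z hz)
  · exact (Set.ncard_insert_le _ _).trans (by have := h.card; omega)

theorem Cfg.near (hP : Pair t dm g B r E E' col S₀) (hD : 1 ≤ D) : ∀ (ℓ d N : ℕ)
    (R : Set (V × V)), Cfg t E E' col S₀ (D + ℓ) (d + ℓ) N R → D + ℓ ≤ g → d + ℓ ≤ dm →
    N + ℓ + 1 ≤ t → ∀ (s x : V), s ∈ Prod.fst '' R → ∀ w : (und E).Walk s x, w.length = ℓ →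
    ∃ y R', R ⊆ R' ∧ (x, y) ∈ R' ∧ Cfg t E E' col S₀ D d (N + ℓ) R' := by
  intro ℓ
  induction ℓ with
  | zero =>
    intro d N R h _ _ _ s x hs w hw
    cases w with
    | nil =>
      obtain ⟨⟨a, b⟩, hab, rfl⟩ := hs
      exact ⟨b, R, subset_rfl, hab, h⟩
    | cons _ _ => simp at hw
  | succ ℓ ih =>
    intro d N R h hg hd ht s x hs w hw
    cases w with
    | nil => simp at hw
    | @cons _ p _ hadj w' =>
      have hw' : w'.length = ℓ := by simpa using hw
      by_cases hp : p ∈ Prod.fst '' R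
      · obtain ⟨y, R', hR, hy, hc⟩ := ih d N R
          (h.weaken (by omega) (by omega) le_rfl) (by omega) (by omega) (by omega) p x hp w' hw'
        exact ⟨y, R', hR, hy, hc.weaken le_rfl le_rfl (by omega)⟩
      · obtain ⟨⟨a, s'⟩, hab, rfl⟩ := hs
        obtain ⟨p', hp'⟩ := Cfg.step (D := D + ℓ) (d := d + ℓ) hP h (by omega) (by omega)
          (by omega) (by omega) hab hadj hp
        obtain ⟨y, R', hR, hy, hc⟩ := ih d (N + 1) _ hp' (by omega) (by omega) (by omega) p x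
          ⟨(p, p'), Set.mem_insert _ _, rfl⟩ w' hw'
        exact ⟨y, R', (Set.subset_insert _ _).trans hR, hy, hc.weaken le_rfl le_rfl (by omega)⟩

theorem Cfg.ext (hP : Pair t dm g B r E E' col S₀)
    (h : Cfg t E E' col S₀ (2 * D) (d + D) N R) (h1 : 1 ≤ D) (hr : D ≤ r) (hg : 2 * D ≤ g)
    (hd : d + D ≤ dm) (hN : N + D + 1 ≤ t) (hB : N ≤ B) (x : V) :
    ∃ y R', R ⊆ R' ∧ (x, y) ∈ R' ∧ Cfg t E E' col S₀ D d (N + D) R' := by
  by_cases hx : Near (und E) D (Prod.fst '' R) x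
  · obtain ⟨s, hs, w, hw⟩ := hx
    obtain ⟨y, R', hR, hy, hc⟩ := Cfg.near hP h1 w.length d N R
      (h.weaken (by omega) (by omega) le_rfl) (by omega) (by omega) (by omega) s x hs w rfl
    exact ⟨y, R', hR, hy, hc.weaken le_rfl le_rfl (by omega)⟩
  · obtain ⟨y, hy⟩ := Cfg.far hP h h1 hr (by omega) hd hB hx
    exact ⟨y, _, Set.subset_insert _ _, Set.mem_insert _ _,
      hy.weaken le_rfl (by omega) (by omega)⟩

theorem Cfg.ext' (hP : Pair t dm g B r E E' col S₀)
    (h : Cfg t E E' col S₀ (2 * D) (d + D) N R) (h1 : 1 ≤ D) (hr : D ≤ r) (hg : 2 * D ≤ g)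
    (hd : d + D ≤ dm) (hN : N + D + 1 ≤ t) (hB : N ≤ B) (y : V) :
    ∃ x R', R ⊆ R' ∧ (x, y) ∈ R' ∧ Cfg t E E' col S₀ D d (N + D) R' := by
  obtain ⟨x, R', hR, hx, hc⟩ := Cfg.ext hP.symm h.symm h1 hr hg hd hN hB y
  refine ⟨x, Prod.swap '' R', ?_, ⟨(y, x), hx, rfl⟩, hc.symm⟩
  rintro ⟨a, b⟩ hab
  exact ⟨(b, a), hR ⟨(a, b), hab, rfl⟩, rfl⟩

end Pool.Agent.MIP
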