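import Pool.Agent.Lib.MP_d404e6_lc.Logic
import Pool.Agent.Lib.MP_d404e6_lc.Core

/-!
# No monadic protocol decides 3-UNSAT

* `impl_cnfOf`: every clause of `cnfOf E s t` is of the allowed form.
* `unsat_path`: the path forces `0, 1, ..., n` to be true.
* `sat_del`: the set of all `x ≤ i` satisfies all clauses.
* `play_eq`: let the colourings given by the sets `P.sets ρ W`, for all states `W` of the play in
  `cnfOf E s t`, satisfy `BF`. By induction on the number of rounds the play in `cnfOf E' s t`
  is the same (`holds_iff` for the formulas `ask`), and so is acceptance (`holds_iff` for the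
  sentence `accept`).
* `no_protocol`: suppose `P` decides 3-UNSAT on implicational formulas with completeness `c` and
  soundness error `s < c`. Take `K` with `P.rounds + 1 < (c - s) * K` and `core` for
  `κ = (_ → Prop) × Prop × Prop`, `q = P.rank`, `K`, with some `n ≥ max n₀ 1`. Let `A` be a prover
  for `cnfOf E 0 n` with `c ≤ P.accProb A`. For every `i` we have `P.accProb A ≤ s` in
  `cnfOf (del E i (i + 1)) 0 n`. For every `ρ` accepted in `cnfOf E 0 n` all but
  `(P.rounds + 1) * n / K` of the `i` accept `ρ` as well (`play_eq`, `core` for the colourings of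
  the `P.rounds + 1` states). Summing over `ρ` and `i`:
  `n * s ≥ c * (n - (P.rounds + 1) * n / K)`, so `s ≥ c - (P.rounds + 1) / K` as `c ≤ 1`.
* `unsat_coNP`: with one set variable `X` the sentence says that some clause is violated by `X`
  (disjunction over the eight symbols).
-/

open FirstOrder

namespace Pool.Agent.MIP

theorem hasClause_cnfOf {V : Type} (E : V → V → Prop) (s t : V) (a b c : Bool) (x y z : V) :
    @HasClause V (cnfOf E s t) a b c x y z ↔
      (((a, b, c) = (true, true, true) ∧ x = s ∧ y = s ∧ z = s) ∨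
       ((a, b, c) = (false, false, false) ∧ x = t ∧ y = t ∧ z = t) ∨
       ((a, b, c) = (false, true, true) ∧ E x y ∧ z = y)) := Iff.rfl

theorem impl_cnfOf {V : Type} (E : V → V → Prop) (s t : V) :
    @Implicational V (cnfOf E s t) := by
  intro a b c x y z h
  rw [hasClause_cnfOf] at h
  rcases h with ⟨h, h1, h2, h3⟩ | ⟨h, h1, h2, h3⟩ | ⟨h, h1, h2⟩
  · simp only [Prod.mk.injEq] at h
    left
    simp [h, h1, h2, h3]
  · simp only [Prod.mk.injEq] at h
    left
    simp [h, h1, h2, h3]
  · simp only [Prod.mk.injEq] at h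
    right
    simp [h, h2]

theorem unsat_path {n : ℕ} {E : Fin (n + 1) → Fin (n + 1) → Prop}
    (hE : ∀ x y : Fin (n + 1), y.val = x.val + 1 → E x y) :
    @Unsat (Fin (n + 1)) (cnfOf E 0 (Fin.last n)) := by
  rintro ⟨X, hX⟩
  have h0 : (0 : Fin (n + 1)) ∈ X := by
    have := hX true true true 0 0 0 (by rw [hasClause_cnfOf]; left; simp)
    simpa using this
  have hk : ∀ k (hk : k < n + 1), (⟨k, hk⟩ : Fin (n + 1)) ∈ X := by
    intro k
    induction k with
    | zero => intro _; exact h0
    | succ k ih =>
      intro hk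
      have h1 := ih (by omega)
      have := hX false true true ⟨k, by omega⟩ ⟨k + 1, hk⟩ ⟨k + 1, hk⟩ (by
        rw [hasClause_cnfOf]; right; right
        exact ⟨rfl, hE _ _ rfl, rfl⟩)
      simpa [h1] using this
  have hl := hX false false false (Fin.last n) (Fin.last n) (Fin.last n) (by
    rw [hasClause_cnfOf]; right; left; simp)
  have := hk n (by omega)
  have hlast : (Fin.last n) ∈ X := this
  simp [hlast] at hl

theorem sat_del {n : ℕ} {E : Fin (n + 1) → Fin (n + 1) → Prop}
    (hE : ∀ x y : Fin (n + 1), E x y → y.val = x.val + 1 ∨ y.val + 1 < x.val) (i : Fin n) :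
    @Satisfiable (Fin (n + 1)) (cnfOf (del E i.castSucc i.succ) 0 (Fin.last n)) := by
  refine ⟨{x | x.val ≤ i.val}, ?_⟩
  intro a b c x y z h
  rw [hasClause_cnfOf] at h
  rcases h with ⟨h, h1, h2, h3⟩ | ⟨h, h1, h2, h3⟩ | ⟨h, h1, h2⟩
  · simp only [Prod.mk.injEq] at h
    left
    simp [h, h1]
  · simp only [Prod.mk.injEq] at h
    left
    have := i.isLt
    simp [h, h1]
  · simp only [Prod.mk.injEq] at h
    by_cases hx : x.val ≤ i.val
    · right; left
      obtain ⟨h3, h4⟩ := h1
      have h5 := hE _ _ h3
      simp only [Set.mem_ofPred_eq, h]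
      simp only [iff_true]
      rcases h5 with h5 | h5
      · by_contra hcon
        apply h4
        constructor
        · apply Fin.ext; simp; omega
        · apply Fin.ext; simp; omega
      · omega
    · left
      simp [h, hx]
theorem play_eq_aux (P : Protocol cnf3) {V : Type} [Finite V] (E E' : V → V → Prop) (s t : V)
    (A : P.Prover V) (ρ : Fin P.coins → Set V)
    (h : ∀ k ≤ P.rounds, BF P.rank E E' (fun v =>
      ((fun i => v ∈ P.sets ρ (@Protocol.play _ P V (cnfOf E s t) A ρ k).2 i, v = s, v = t) :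
        (_ → Prop) × Prop × Prop))) : ∀ k ≤ P.rounds,
    @Protocol.play _ P V (cnfOf E s t) A ρ k = @Protocol.play _ P V (cnfOf E' s t) A ρ k := by
  intro k
  induction k with
  | zero => intro _; rfl
  | succ k ih =>
    intro hk
    have h1 := ih (by omega)
    have hlt : k < P.rounds := by omega
    have hq : @Protocol.query _ P V (cnfOf E s t) ρ (@Protocol.play _ P V (cnfOf E s t) A ρ k).2
        ⟨k, hlt⟩ = @Protocol.query _ P V (cnfOf E' s t) ρ
          (@Protocol.play _ P V (cnfOf E s t) A ρ k).2 ⟨k, hlt⟩ := by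
      funext l
      ext x
      exact holds_iff E E' s t _ P.rank (h k (by omega)) _ (P.ask_rank _ _ _) _ x (fun _ => rfl)
    simp only [Protocol.play, hlt, dif_pos]
    rw [← h1, hq]

theorem play_eq (P : Protocol cnf3) {V : Type} [Finite V] (E E' : V → V → Prop) (s t : V)
    (A : P.Prover V) (ρ : Fin P.coins → Set V)
    (h : ∀ k ≤ P.rounds, BF P.rank E E' (fun v =>
      ((fun i => v ∈ P.sets ρ (@Protocol.play _ P V (cnfOf E s t) A ρ k).2 i, v = s, v = t) :
        (_ → Prop) × Prop × Prop))) :
    @Protocol.Accepts _ P V (cnfOf E s t) A ρ ↔ @Protocol.Accepts _ P V (cnfOf E' s t) A ρ := by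
  unfold Protocol.Accepts
  rw [← play_eq_aux P E E' s t A ρ h P.rounds le_rfl]
  exact holds_iff E E' s t _ P.rank (h P.rounds le_rfl) _ (P.accept_rank _) _ s
    (fun a => a.elim)

theorem accProb_nonneg (P : Protocol cnf3) {V : Type} [cnf3.Structure V] (A : P.Prover V) :
    0 ≤ P.accProb A := by
  unfold Protocol.accProb
  positivity

theorem accProb_le_one (P : Protocol cnf3) {V : Type} [Finite V] [cnf3.Structure V]
    (A : P.Prover V) : P.accProb A ≤ 1 := by
  unfold Protocol.accProb
  apply div_le_one_of_le₀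
  · exact_mod_cast Nat.card_le_card_of_injective (fun x : {ρ : Fin P.coins → Set V //
      P.Accepts A ρ} => x.1) Subtype.val_injective
  · positivity

theorem no_protocol (P : Protocol cnf3) (c s : ℝ) (hcs : s < c) :
    ¬ P.Decides Implicational Unsat c s := by
  classical
  intro hdec
  have hpos : 0 < c - s := by linarith
  obtain ⟨K, hK⟩ := exists_nat_gt (((P.rounds : ℝ) + 1) / (c - s))
  rw [div_lt_iff₀ hpos] at hK
  have hK1 : 1 ≤ K := by
    rcases Nat.eq_zero_or_pos K with h | h
    · subst h
      have : (0 : ℝ) ≤ P.rounds := Nat.cast_nonneg _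
      simp at hK
      linarith
    · exact h
  obtain ⟨n₀, hcore⟩ := core (((Fin P.coins ⊕ Fin P.rounds × Fin P.rs) → Prop) × Prop × Prop)
    P.rank K hK1
  obtain ⟨n, hn⟩ : ∃ n, n = n₀ + 1 := ⟨_, rfl⟩
  obtain ⟨E, hE1, hE2, hE3⟩ := hcore n (by omega)
  have hn1 : 1 ≤ n := by omega
  obtain ⟨A, hA⟩ := (@hdec (Fin (n + 1)) _ (cnfOf E 0 (Fin.last n)) (impl_cnfOf _ _ _)).1
    (unsat_path hE1)
  have hno : ∀ i : Fin n, @Protocol.accProb _ P (Fin (n + 1))
      (cnfOf (del E i.castSucc i.succ) 0 (Fin.last n)) A ≤ s := fun i =>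
    (@hdec (Fin (n + 1)) _ (cnfOf (del E i.castSucc i.succ) 0 (Fin.last n))
      (impl_cnfOf _ _ _)).2 (not_not.2 (sat_del hE2 i)) A
  have hs0 : 0 ≤ s := le_trans (@accProb_nonneg P _ (cnfOf (del E (⟨0, hn1⟩ : Fin n).castSucc
    (⟨0, hn1⟩ : Fin n).succ) 0 (Fin.last n)) A) (hno ⟨0, hn1⟩)
  have hc1 : c ≤ 1 := le_trans hA (@accProb_le_one P _ _ (cnfOf E 0 (Fin.last n)) A)
  let _ : Fintype (Fin P.coins → Set (Fin (n + 1))) := Fintype.ofFinite _
  -- acceptance predicates
  let acc : (Fin P.coins → Set (Fin (n + 1))) → Prop := fun ρ =>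
    @Protocol.Accepts _ P (Fin (n + 1)) (cnfOf E 0 (Fin.last n)) A ρ
  let acci : Fin n → (Fin P.coins → Set (Fin (n + 1))) → Prop := fun i ρ =>
    @Protocol.Accepts _ P (Fin (n + 1)) (cnfOf (del E i.castSucc i.succ) 0 (Fin.last n)) A ρ
  let N : ℝ := (Fintype.card (Fin P.coins → Set (Fin (n + 1))) : ℝ)
  have hN : 0 < N := by
    have : 0 < Fintype.card (Fin P.coins → Set (Fin (n + 1))) := Fintype.card_pos
    exact Nat.cast_pos.2 this
  have hcardacc : c * N ≤ ((Finset.univ.filter acc).card : ℝ) := by
    have := hA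
    unfold Protocol.accProb at this
    rw [Nat.card_eq_fintype_card, Nat.card_eq_fintype_card, le_div_iff₀ hN,
      Fintype.card_subtype] at this
    exact this
  have hcardi : ∀ i, ((Finset.univ.filter (acci i)).card : ℝ) ≤ s * N := by
    intro i
    have := hno i
    unfold Protocol.accProb at this
    rw [Nat.card_eq_fintype_card, Nat.card_eq_fintype_card, div_le_iff₀ hN,
      Fintype.card_subtype] at this
    exact this
  -- for accepted coins almost all i accept
  have key : ∀ ρ, acc ρ → (K : ℝ) * n - (P.rounds + 1) * n ≤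
      K * ((Finset.univ.filter (fun i => acci i ρ)).card : ℝ) := by
    intro ρ hρ
    let col : ℕ → Fin (n + 1) → ((Fin P.coins ⊕ Fin P.rounds × Fin P.rs) → Prop) × Prop × Prop :=
      fun k v => (fun i => v ∈ P.sets ρ (@Protocol.play _ P (Fin (n + 1))
        (cnfOf E 0 (Fin.last n)) A ρ k).2 i, v = 0, v = Fin.last n)
    have hbad : (Finset.univ.filter (fun i => ¬ acci i ρ)) ⊆
        (Finset.range (P.rounds + 1)).biUnion (fun k => Finset.univ.filter
          (fun i : Fin n => ¬ BF P.rank E (del E i.castSucc i.succ) (col k))) := by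
      intro i hi
      simp only [Finset.mem_filter, Finset.mem_univ, true_and] at hi
      simp only [Finset.mem_biUnion, Finset.mem_range, Finset.mem_filter, Finset.mem_univ,
        true_and]
      by_contra hcon
      push Not at hcon
      exact hi ((play_eq P E (del E i.castSucc i.succ) 0 (Fin.last n) A ρ
        (fun k hk => hcon k (by omega))).1 hρ)
    have h1 : K * (Finset.univ.filter (fun i => ¬ acci i ρ)).card ≤ (P.rounds + 1) * n := by
      calc K * (Finset.univ.filter (fun i => ¬ acci i ρ)).card
          ≤ K * ∑ k ∈ Finset.range (P.rounds + 1), (Finset.univ.filter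
          (fun i : Fin n => ¬ BF P.rank E (del E i.castSucc i.succ) (col k))).card :=
            Nat.mul_le_mul_left _ (le_trans (Finset.card_le_card hbad) Finset.card_biUnion_le)
        _ = ∑ k ∈ Finset.range (P.rounds + 1), K * (Finset.univ.filter
          (fun i : Fin n => ¬ BF P.rank E (del E i.castSucc i.succ) (col k))).card :=
            Finset.mul_sum _ _ _
        _ ≤ ∑ _k ∈ Finset.range (P.rounds + 1), n := by
            apply Finset.sum_le_sum
            intro k _
            have := hE3 (col k)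
            rwa [Set.ncard_eq_toFinset_card', Set.toFinset_ofPred] at this
        _ = (P.rounds + 1) * n := by simp
    have h2 := Finset.card_filter_add_card_filter_not (s := (Finset.univ : Finset (Fin n)))
      (fun i => acci i ρ)
    simp only [Finset.card_univ, Fintype.card_fin] at h2
    have h1' : (K : ℝ) * ((Finset.univ.filter (fun i => ¬ acci i ρ)).card : ℝ) ≤
        (P.rounds + 1) * n := by exact_mod_cast h1
    have h2' : ((Finset.univ.filter (fun i => acci i ρ)).card : ℝ) +
        ((Finset.univ.filter (fun i => ¬ acci i ρ)).card : ℝ) = n := by exact_mod_cast h2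
    nlinarith
  -- double counting
  have hswap : ∑ i : Fin n, ((Finset.univ.filter (acci i)).card : ℝ) =
      ∑ ρ, ((Finset.univ.filter (fun i => acci i ρ)).card : ℝ) := by
    simp only [Finset.card_filter, Nat.cast_sum]
    rw [Finset.sum_comm]
  have hlow : ((Finset.univ.filter acc).card : ℝ) * ((K : ℝ) * n - (P.rounds + 1) * n) ≤
      K * ∑ ρ, ((Finset.univ.filter (fun i => acci i ρ)).card : ℝ) := by
    rw [Finset.mul_sum]
    calc ((Finset.univ.filter acc).card : ℝ) * ((K : ℝ) * n - (P.rounds + 1) * n)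
        = ∑ _ρ ∈ Finset.univ.filter acc, ((K : ℝ) * n - (P.rounds + 1) * n) := by
          rw [Finset.sum_const, nsmul_eq_mul]
      _ ≤ ∑ ρ ∈ Finset.univ.filter acc, K * ((Finset.univ.filter (fun i => acci i ρ)).card : ℝ) :=
          Finset.sum_le_sum (fun ρ hρ => key ρ (by simpa using hρ))
      _ ≤ ∑ ρ, K * ((Finset.univ.filter (fun i => acci i ρ)).card : ℝ) :=
          Finset.sum_le_sum_of_subset_of_nonneg (Finset.filter_subset _ _)
            (fun _ _ _ => by positivity)
  have hup : ∑ i : Fin n, ((Finset.univ.filter (acci i)).card : ℝ) ≤ n * (s * N) := by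
    calc ∑ i : Fin n, ((Finset.univ.filter (acci i)).card : ℝ) ≤ ∑ _i : Fin n, s * N :=
          Finset.sum_le_sum (fun i _ => hcardi i)
      _ = n * (s * N) := by simp
  have hKpos : (0 : ℝ) < K := by exact_mod_cast hK1
  have hnpos : (0 : ℝ) < n := by exact_mod_cast hn1
  have hround : (P.rounds : ℝ) + 1 < K := by nlinarith
  have h3 : c * N * ((K : ℝ) * n - (P.rounds + 1) * n) ≤ K * (n * (s * N)) := by
    have hnn : 0 ≤ (K : ℝ) * n - (P.rounds + 1) * n := by nlinarith
    calc c * N * ((K : ℝ) * n - (P.rounds + 1) * n)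
        ≤ ((Finset.univ.filter acc).card : ℝ) * ((K : ℝ) * n - (P.rounds + 1) * n) :=
          mul_le_mul_of_nonneg_right hcardacc hnn
      _ ≤ K * ∑ ρ, ((Finset.univ.filter (fun i => acci i ρ)).card : ℝ) := hlow
      _ = K * ∑ i : Fin n, ((Finset.univ.filter (acci i)).card : ℝ) := by rw [hswap]
      _ ≤ K * (n * (s * N)) := mul_le_mul_of_nonneg_left hup hKpos.le
  have h4 : c * ((K : ℝ) - (P.rounds + 1)) ≤ K * s := by
    have h5 : (c * ((K : ℝ) - (P.rounds + 1))) * (N * n) ≤ (K * s) * (N * n) := by
      calc (c * ((K : ℝ) - (P.rounds + 1))) * (N * n)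
          = c * N * ((K : ℝ) * n - (P.rounds + 1) * n) := by ring
        _ ≤ K * (n * (s * N)) := h3
        _ = (K * s) * (N * n) := by ring
    exact le_of_mul_le_mul_right h5 (by positivity)
  have hr0 : (0 : ℝ) ≤ P.rounds := Nat.cast_nonneg _
  nlinarith

/-- `x_i ∈ X`. -/
def memF (i : Fin 3) : (cnf3.sum (setLang (Fin 1))).BoundedFormula Empty 3 :=
  FirstOrder.Language.BoundedFormula.rel (l := 1)
    (Sum.inr (show (setLang (Fin 1)).Relations 1 from (0 : Fin 1)))
    (fun _ => FirstOrder.Language.Term.var (Sum.inr i))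

/-- the clause with the signs `r` of the three bound variables belongs to the formula -/
def clauseF (r : Bool × Bool × Bool) : (cnf3.sum (setLang (Fin 1))).BoundedFormula Empty 3 :=
  FirstOrder.Language.BoundedFormula.rel (l := 3)
    (Sum.inl (show cnf3.Relations 3 from r))
    (fun i => FirstOrder.Language.Term.var (Sum.inr i))

/-- the literal with sign `a` of the bound variable `i` is false -/
def falseF (a : Bool) (i : Fin 3) : (cnf3.sum (setLang (Fin 1))).BoundedFormula Empty 3 :=
  if a then (memF i).not else memF i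

/-- some clause is violated by the set -/
noncomputable def violF : (cnf3.sum (setLang (Fin 1))).Sentence :=
  (FirstOrder.Language.BoundedFormula.iSup (fun r : Bool × Bool × Bool =>
    clauseF r ⊓ (falseF r.1 0 ⊓ (falseF r.2.1 1 ⊓ falseF r.2.2 2)))).ex.ex.ex

theorem realize_falseF {V : Type} [cnf3.Structure V] (X : Fin 1 → Set V) (a : Bool) (i : Fin 3)
    (v : Empty → V) (xs : Fin 3 → V) :
    @FirstOrder.Language.BoundedFormula.Realize (cnf3.sum (setLang (Fin 1))) V
      (@FirstOrder.Language.sumStructure cnf3 (setLang (Fin 1)) V _ (setStr X)) Empty 3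
      (falseF a i) v xs ↔ ¬ (xs i ∈ X 0 ↔ a = true) := by
  cases a
  · simp only [falseF, Bool.false_eq_true, if_false, iff_false, not_not]
    exact Iff.rfl
  · simp only [falseF, if_true, iff_true]
    exact Iff.rfl

theorem holds_violF {V : Type} [cnf3.Structure V] (X : Fin 1 → Set V) :
    Holds X violF Empty.elim ↔ ∃ (x y z : V) (r : Bool × Bool × Bool),
      HasClause r.1 r.2.1 r.2.2 x y z ∧ ¬ (x ∈ X 0 ↔ r.1 = true) ∧ ¬ (y ∈ X 0 ↔ r.2.1 = true) ∧
        ¬ (z ∈ X 0 ↔ r.2.2 = true) := by
  let inst : (setLang (Fin 1)).Structure V := setStr X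
  unfold Holds violF FirstOrder.Language.Formula.Realize
  simp only [FirstOrder.Language.BoundedFormula.realize_ex]
  refine exists_congr fun x => exists_congr fun y => exists_congr fun z => ?_
  rw [FirstOrder.Language.BoundedFormula.realize_iSup]
  refine exists_congr fun r => ?_
  rw [FirstOrder.Language.BoundedFormula.realize_inf,
    FirstOrder.Language.BoundedFormula.realize_inf,
    FirstOrder.Language.BoundedFormula.realize_inf, realize_falseF, realize_falseF,
    realize_falseF]
  have h0 : (Fin.snoc (Fin.snoc (Fin.snoc default x) y) z : Fin 3 → V) = ![x, y, z] := by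
    funext i
    fin_cases i <;> rfl
  rw [h0]
  refine and_congr ?_ Iff.rfl
  unfold HasClause
  exact Iff.rfl

theorem unsat_coNP : MonadicCoNP Unsat := by
  refine ⟨1, violF, ?_⟩
  intro V _ _
  constructor
  · intro h X
    rw [holds_violF]
    by_contra hcon
    push Not at hcon
    apply h
    refine ⟨X 0, fun a b c x y z hc => ?_⟩
    by_contra h2
    push Not at h2
    have h3 := hcon x y z (a, b, c) hc
    tauto
  · rintro h ⟨X, hX⟩
    have := h (fun _ => X)
    rw [holds_violF] at this
    obtain ⟨x, y, z, r, hc, h1, h2, h3⟩ := this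
    rcases hX _ _ _ x y z hc with h | h | h
    · exact h1 h
    · exact h2 h
    · exact h3 h

end Pool.Agent.MIP
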