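import Pool.Agent.Lib.MP_d404e6_lc.Defs
import Pool.Agent.Lib.MP_d404e6_lc.Base

/-!
# First-order formulas and back-and-forth systems

* `ef`: the usual induction on the formula for a relational language. (Terms are variables because
  there are no function symbols.)
* `holds_iff`: apply `ef` to the structures `cnfOf E s t` and `cnfOf E' s t` expanded by the sets
  `X i`, and the system of `BF`. A configuration `R` preserves equality, the edge relation and
  the colours, where the colour of `v` says which `X i` contain `v`, whether `v = s` and whether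
  `v = t`; all relations of the expanded structures are quantifier-free definable from these.
-/

open FirstOrder

namespace Pool.Agent.MIP

theorem ef {L : FirstOrder.Language.{0, 0}} (hL : ∀ n, IsEmpty (L.Functions n)) {M N : Type}
    [L.Structure M] [L.Structure N] (F : ℕ → Set (M × N) → Prop)
    (heq : ∀ m R, F m R → ∀ p ∈ R, ∀ r ∈ R, (p.1 = r.1 ↔ p.2 = r.2))
    (hrel : ∀ m R, F m R → ∀ {l : ℕ} (S : L.Relations l) (v : Fin l → M) (v' : Fin l → N),
      (∀ i, (v i, v' i) ∈ R) →
      (FirstOrder.Language.Structure.RelMap S v ↔ FirstOrder.Language.Structure.RelMap S v'))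
    (hf : ∀ m R, F (m + 1) R → ∀ x, ∃ y R', F m R' ∧ R ⊆ R' ∧ (x, y) ∈ R')
    (hb : ∀ m R, F (m + 1) R → ∀ y, ∃ x R', F m R' ∧ R ⊆ R' ∧ (x, y) ∈ R')
    {α : Type} {n : ℕ} (φ : L.BoundedFormula α n) : ∀ (m : ℕ), qrank φ ≤ m → ∀ R, F m R →
    ∀ (v : α → M) (v' : α → N) (xs : Fin n → M) (xs' : Fin n → N),
    (∀ a, (v a, v' a) ∈ R) → (∀ i, (xs i, xs' i) ∈ R) →
    (φ.Realize v xs ↔ φ.Realize v' xs') := by
  have hterm : ∀ (R : Set (M × N)) {k : ℕ} (v : α → M) (v' : α → N) (xs : Fin k → M)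
      (xs' : Fin k → N), (∀ a, (v a, v' a) ∈ R) → (∀ i, (xs i, xs' i) ∈ R) →
      ∀ u : L.Term (α ⊕ Fin k), (u.realize (Sum.elim v xs), u.realize (Sum.elim v' xs')) ∈ R := by
    intro R k v v' xs xs' h1 h2 u
    cases u with
    | var x =>
      rcases x with a | i
      · exact h1 a
      · exact h2 i
    | func g _ => exact ((hL _).false g).elim
  induction φ with
  | falsum => exact fun _ _ _ _ _ _ _ _ _ _ => Iff.rfl
  | equal u1 u2 =>
    intro m _ R hR v v' xs xs' h1 h2
    simp only [FirstOrder.Language.BoundedFormula.Realize]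
    exact heq m R hR _ (hterm R v v' xs xs' h1 h2 u1) _ (hterm R v v' xs xs' h1 h2 u2)
  | rel S us =>
    intro m _ R hR v v' xs xs' h1 h2
    simp only [FirstOrder.Language.BoundedFormula.Realize]
    exact hrel m R hR S _ _ fun i => hterm R v v' xs xs' h1 h2 (us i)
  | imp f g ihf ihg =>
    intro m hm R hR v v' xs xs' h1 h2
    have hm' : max (qrank f) (qrank g) ≤ m := hm
    simp only [FirstOrder.Language.BoundedFormula.Realize]
    rw [ihf m ((le_max_left _ _).trans hm') R hR v v' xs xs' h1 h2,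
      ihg m ((le_max_right _ _).trans hm') R hR v v' xs xs' h1 h2]
  | all f ih =>
    intro m hm R hR v v' xs xs' h1 h2
    have hm' : qrank f + 1 ≤ m := hm
    obtain ⟨m', rfl⟩ : ∃ m', m = m' + 1 := ⟨m - 1, by omega⟩
    have hm2 : qrank f ≤ m' := by omega
    simp only [FirstOrder.Language.BoundedFormula.Realize]
    have hs : ∀ (R' : Set (M × N)), R ⊆ R' → ∀ x y, (x, y) ∈ R' →
        ∀ i, ((Fin.snoc xs x : Fin (_ + 1) → M) i, (Fin.snoc xs' y : Fin (_ + 1) → N) i) ∈ R' := by
      intro R' hsub x y hxy i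
      refine Fin.lastCases ?_ (fun j => ?_) i
      · rw [Fin.snoc_last, Fin.snoc_last]
        exact hxy
      · rw [Fin.snoc_castSucc, Fin.snoc_castSucc]
        exact hsub (h2 j)
    constructor
    · intro h y
      obtain ⟨x, R', hF, hsub, hxy⟩ := hb m' R hR y
      exact (ih m' hm2 R' hF v v' _ _ (fun a => hsub (h1 a)) (hs R' hsub x y hxy)).mp (h x)
    · intro h x
      obtain ⟨y, R', hF, hsub, hxy⟩ := hf m' R hR x
      exact (ih m' hm2 R' hF v v' _ _ (fun a => hsub (h1 a)) (hs R' hsub x y hxy)).mpr (h y)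

theorem holds_iff {V ι : Type} (E E' : V → V → Prop) (s t : V) (X : ι → Set V) (q : ℕ)
    (hBF : BF q E E' (fun v => ((fun i => v ∈ X i, v = s, v = t) : (ι → Prop) × Prop × Prop)))
    {α : Type} (φ : (cnf3.sum (setLang ι)).Formula α) (hφ : qrank φ ≤ q) (v : α → V) (x : V)
    (hv : ∀ a, v a = x) :
    @Holds cnf3 ι α V (cnfOf E s t) X φ v ↔ @Holds cnf3 ι α V (cnfOf E' s t) X φ v := by
  obtain ⟨F, hcol, hedge, hforth, hback, hdiag⟩ := hBF
  obtain ⟨R, hR, hx⟩ := hdiag x
  have hcol' : ∀ m R, F m R → ∀ p ∈ R, (∀ i, p.1 ∈ X i ↔ p.2 ∈ X i) ∧ (p.1 = s ↔ p.2 = s) ∧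
      (p.1 = t ↔ p.2 = t) := by
    intro m R hR p hp
    have h1 := hcol m R hR p hp
    refine ⟨fun i => ?_, ?_, ?_⟩
    · exact iff_of_eq (congrFun (congrArg Prod.fst h1) i)
    · exact iff_of_eq (congrArg (fun z => z.2.1) h1)
    · exact iff_of_eq (congrArg (fun z => z.2.2) h1)
  refine @ef (cnf3.sum (setLang ι)) (fun n => ⟨?_⟩) V V
    (@FirstOrder.Language.sumStructure cnf3 (setLang ι) V (cnfOf E s t) (setStr X))
    (@FirstOrder.Language.sumStructure cnf3 (setLang ι) V (cnfOf E' s t) (setStr X))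
    F (fun m R hR p hp r hr => (hedge m R hR p hp r hr).1) ?_ hforth hback α 0 φ q hφ R hR v v
    default default (fun a => by rw [hv a]; exact hx) (fun i => i.elim0)
  · rintro (g | g)
    · exact Empty.elim g
    · exact Empty.elim g
  · intro m R hR l S w w' hw
    have hc := fun i => hcol' m R hR _ (hw i)
    have he := fun i j => (hedge m R hR _ (hw i) _ (hw j)).2
    have hq := fun i j => (hedge m R hR _ (hw i) _ (hw j)).1
    rcases S with S | S
    · match l, S, w, w', hw, hc, he, hq with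
      | 0, S, _, _, _, _, _, _ => exact Empty.elim S
      | 1, S, _, _, _, _, _, _ => exact Empty.elim S
      | 2, S, _, _, _, _, _, _ => exact Empty.elim S
      | 3, S, w, w', hw, hc, he, hq =>
        change ((S = (true, true, true) ∧ w 0 = s ∧ w 1 = s ∧ w 2 = s) ∨
          (S = (false, false, false) ∧ w 0 = t ∧ w 1 = t ∧ w 2 = t) ∨
          (S = (false, true, true) ∧ E (w 0) (w 1) ∧ w 2 = w 1)) ↔
          ((S = (true, true, true) ∧ w' 0 = s ∧ w' 1 = s ∧ w' 2 = s) ∨
          (S = (false, false, false) ∧ w' 0 = t ∧ w' 1 = t ∧ w' 2 = t) ∨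
          (S = (false, true, true) ∧ E' (w' 0) (w' 1) ∧ w' 2 = w' 1))
        rw [(hc 0).2.1, (hc 1).2.1, (hc 2).2.1, (hc 0).2.2, (hc 1).2.2, (hc 2).2.2, he 0 1, hq 2 1]
      | _ + 4, S, _, _, _, _, _, _ => exact Empty.elim S
    · match l, S, w, w', hw, hc, he, hq with
      | 0, S, _, _, _, _, _, _ => exact Empty.elim S
      | 1, S, w, w', hw, hc, he, hq => exact (hc 0).1 S
      | _ + 2, S, _, _, _, _, _, _ => exact Empty.elim S

end Pool.Agent.MIP
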