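import Mathlib

/-!
# Random functions join large sets

* `exists_C`: for `k = 1` take `C = 1`; for `k ≥ 2` use
  `(k / (k - 1)) ^ C ≥ 1 + C / (k - 1)` (Bernoulli) and `C = (k - 1) * 8 ^ k`.
* `exp_count`: for fixed `X, Y` the number of `f` with `f (a, x) ∉ Y` for all `a` and all
  `x ∈ X` is `(n - |Y|) ^ (C * |X|) * n ^ (C * (n - |X|))` (`Fintype.card_piFinset`). From
  `n ≤ k * |Y|` we get `k * (n - |Y|) ≤ (k - 1) * n`, hence with `e = C * |X|`:
  `(n - |Y|) ^ e * 8 ^ (k * |X|) * k ^ e ≤ n ^ e * (k - 1) ^ e * 8 ^ (k * |X|) ≤ n ^ e * k ^ e`,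
  so `(n - |Y|) ^ e * 8 ^ n ≤ n ^ e` because `n ≤ k * |X|`. There are `4 ^ n` pairs `(X, Y)`, so
  the number in question times `8 ^ n` is at most `4 ^ n * n ^ (C * n)`.
-/

namespace Pool.Agent.MIP

private theorem bern (m n : ℕ) : m ^ n * (m + n) ≤ (m + 1) ^ n * m := by
  induction n with
  | zero => simp
  | succ n ih =>
    calc m ^ (n + 1) * (m + (n + 1)) = m ^ n * (m * m + m * n + m) := by ring
      _ ≤ m ^ n * (m * m + m * n + m + n) := Nat.mul_le_mul_left _ (Nat.le_add_right _ _)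
      _ = (m + 1) * (m ^ n * (m + n)) := by ring
      _ ≤ (m + 1) * ((m + 1) ^ n * m) := Nat.mul_le_mul_left _ ih
      _ = (m + 1) ^ (n + 1) * m := by ring

theorem exists_C (k : ℕ) (hk : 1 ≤ k) : ∃ C : ℕ, (k - 1) ^ C * 8 ^ k ≤ k ^ C := by
  rcases Nat.eq_or_lt_of_le hk with h | h
  · subst h
    exact ⟨1, by norm_num⟩
  · obtain ⟨m, rfl⟩ : ∃ m, k = m + 1 := ⟨k - 1, by omega⟩
    have hm : 0 < m := by omega
    refine ⟨m * 8 ^ (m + 1), ?_⟩
    simp only [Nat.add_sub_cancel]
    have h1 := bern m (m * 8 ^ (m + 1))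
    refine Nat.le_of_mul_le_mul_right ?_ hm
    refine le_trans ?_ h1
    rw [mul_assoc]
    refine Nat.mul_le_mul_left _ ?_
    rw [mul_comm]
    exact Nat.le_add_left _ _

private theorem one_pair (C k n : ℕ) (hk : 1 ≤ k) (hC : (k - 1) ^ C * 8 ^ k ≤ k ^ C)
    (X Y : Finset (Fin n)) (hX : n ≤ k * X.card) (hY : n ≤ k * Y.card) :
    (Finset.univ.filter (fun f : Fin C × Fin n → Fin n =>
      ∀ a, ∀ x ∈ X, f (a, x) ∉ Y)).card * 8 ^ n ≤ n ^ (C * n) := by
  classical
  have hcard : (Finset.univ.filter (fun f : Fin C × Fin n → Fin n =>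
      ∀ a, ∀ x ∈ X, f (a, x) ∉ Y)).card
        = (n - Y.card) ^ (C * X.card) * n ^ (C * (n - X.card)) := by
    have h1 : (Finset.univ.filter (fun f : Fin C × Fin n → Fin n =>
        ∀ a, ∀ x ∈ X, f (a, x) ∉ Y))
        = Fintype.piFinset (fun p : Fin C × Fin n => if p.2 ∈ X then Yᶜ else Finset.univ) := by
      ext f
      simp only [Finset.mem_filter, Finset.mem_univ, true_and, Fintype.mem_piFinset]
      constructor
      · rintro h ⟨a, x⟩
        by_cases hx : x ∈ X
        · simp only [hx, if_true, Finset.mem_compl]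
          exact h a x hx
        · simp [hx]
      · intro h a x hx
        have := h (a, x)
        simpa [hx] using this
    rw [h1, Fintype.card_piFinset, Fintype.prod_prod_type]
    have h2 : (∏ x : Fin n, (if x ∈ X then Yᶜ else Finset.univ).card)
        = (n - Y.card) ^ X.card * n ^ (n - X.card) := by
      rw [← Finset.prod_filter_mul_prod_filter_not Finset.univ (fun x => x ∈ X)]
      congr 1
      · rw [Finset.prod_congr rfl (g := fun _ => n - Y.card)]
        · rw [Finset.prod_const]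
          congr 2
          ext x; simp
        · intro x hx
          rw [Finset.mem_filter] at hx
          rw [if_pos hx.2, Finset.card_compl, Fintype.card_fin]
      · rw [Finset.prod_congr rfl (g := fun _ => n)]
        · rw [Finset.prod_const]
          congr 1
          have : (Finset.univ.filter (fun x => ¬ x ∈ X)) = Xᶜ := by ext x; simp
          rw [this, Finset.card_compl, Fintype.card_fin]
        · intro x hx
          rw [Finset.mem_filter] at hx
          rw [if_neg hx.2, Finset.card_univ, Fintype.card_fin]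
    rw [Finset.prod_congr rfl (fun _ _ => h2), Finset.prod_const, Finset.card_univ,
      Fintype.card_fin, mul_pow, ← pow_mul, ← pow_mul, mul_comm X.card C,
      mul_comm (n - X.card) C]
  rw [hcard]
  have hXn : X.card ≤ n := by simpa using X.card_le_univ
  have hYn : Y.card ≤ n := by simpa using Y.card_le_univ
  have hb : k * (n - Y.card) ≤ (k - 1) * n := by
    rw [Nat.mul_sub, Nat.sub_mul, one_mul]
    exact Nat.sub_le_sub_left hY _
  have hkpos : 0 < k ^ (C * X.card) := pow_pos (by omega) _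
  have key : (n - Y.card) ^ (C * X.card) * 8 ^ n ≤ n ^ (C * X.card) := by
    refine Nat.le_of_mul_le_mul_right ?_ hkpos
    calc (n - Y.card) ^ (C * X.card) * 8 ^ n * k ^ (C * X.card)
        = (k * (n - Y.card)) ^ (C * X.card) * 8 ^ n := by rw [mul_pow]; ring
      _ ≤ ((k - 1) * n) ^ (C * X.card) * 8 ^ (k * X.card) :=
          Nat.mul_le_mul (Nat.pow_le_pow_left hb _) (Nat.pow_le_pow_right (by norm_num) hX)
      _ = n ^ (C * X.card) * ((k - 1) ^ C * 8 ^ k) ^ X.card := by
          rw [mul_pow, mul_pow, ← pow_mul, ← pow_mul]; ring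
      _ ≤ n ^ (C * X.card) * (k ^ C) ^ X.card :=
          Nat.mul_le_mul_left _ (Nat.pow_le_pow_left hC _)
      _ = n ^ (C * X.card) * k ^ (C * X.card) := by rw [← pow_mul]
  calc (n - Y.card) ^ (C * X.card) * n ^ (C * (n - X.card)) * 8 ^ n
      = ((n - Y.card) ^ (C * X.card) * 8 ^ n) * n ^ (C * (n - X.card)) := by ring
    _ ≤ n ^ (C * X.card) * n ^ (C * (n - X.card)) := Nat.mul_le_mul_right _ key
    _ = n ^ (C * n) := by
        rw [← pow_add, ← Nat.mul_add, Nat.add_sub_cancel' hXn]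

theorem exp_count (C k n : ℕ) (hk : 1 ≤ k) (hC : (k - 1) ^ C * 8 ^ k ≤ k ^ C) :
    Nat.card {f : Fin C × Fin n → Fin n // ∃ X Y : Finset (Fin n), n ≤ k * X.card ∧
      n ≤ k * Y.card ∧ ∀ a, ∀ x ∈ X, f (a, x) ∉ Y} * 2 ^ n ≤ n ^ (C * n) := by
  classical
  rw [Nat.card_eq_fintype_card, Fintype.card_subtype]
  set B := Finset.univ.filter (fun f : Fin C × Fin n → Fin n => ∃ X Y : Finset (Fin n),
    n ≤ k * X.card ∧ n ≤ k * Y.card ∧ ∀ a, ∀ x ∈ X, f (a, x) ∉ Y) with hB
  set P : Finset (Finset (Fin n) × Finset (Fin n)) :=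
    Finset.univ.filter (fun p => n ≤ k * p.1.card ∧ n ≤ k * p.2.card) with hP
  have hsub : B ⊆ P.biUnion (fun p => Finset.univ.filter (fun f : Fin C × Fin n → Fin n =>
      ∀ a, ∀ x ∈ p.1, f (a, x) ∉ p.2)) := by
    intro f hf
    rw [hB, Finset.mem_filter] at hf
    obtain ⟨-, X, Y, hX, hY, h⟩ := hf
    rw [Finset.mem_biUnion]
    refine ⟨(X, Y), ?_, ?_⟩
    · rw [hP, Finset.mem_filter]; exact ⟨Finset.mem_univ _, hX, hY⟩
    · rw [Finset.mem_filter]; exact ⟨Finset.mem_univ _, h⟩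
  have h8 : B.card * 8 ^ n ≤ 4 ^ n * n ^ (C * n) := by
    calc B.card * 8 ^ n
        ≤ (∑ p ∈ P, (Finset.univ.filter (fun f : Fin C × Fin n → Fin n =>
          ∀ a, ∀ x ∈ p.1, f (a, x) ∉ p.2)).card) * 8 ^ n :=
          Nat.mul_le_mul_right _ (le_trans (Finset.card_le_card hsub) Finset.card_biUnion_le)
      _ = ∑ p ∈ P, (Finset.univ.filter (fun f : Fin C × Fin n → Fin n =>
          ∀ a, ∀ x ∈ p.1, f (a, x) ∉ p.2)).card * 8 ^ n := by rw [Finset.sum_mul]
      _ ≤ ∑ _p ∈ P, n ^ (C * n) := by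
          refine Finset.sum_le_sum ?_
          intro p hp
          rw [hP, Finset.mem_filter] at hp
          exact one_pair C k n hk hC p.1 p.2 hp.2.1 hp.2.2
      _ = P.card * n ^ (C * n) := by rw [Finset.sum_const, smul_eq_mul]
      _ ≤ 4 ^ n * n ^ (C * n) := by
          refine Nat.mul_le_mul_right _ ?_
          refine le_trans (Finset.card_le_univ P) ?_
          rw [Fintype.card_prod, Fintype.card_finset, Fintype.card_fin, ← mul_pow]
          norm_num
  have h4 : (0 : ℕ) < 4 ^ n := pow_pos (by norm_num) _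
  refine Nat.le_of_mul_le_mul_left ?_ h4
  calc 4 ^ n * (B.card * 2 ^ n) = B.card * (4 * 2) ^ n := by rw [mul_pow]; ring
    _ = B.card * 8 ^ n := by norm_num
    _ ≤ 4 ^ n * n ^ (C * n) := h8

end Pool.Agent.MIP
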