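import Pool.Agent.Lib.MP_d404e6_lc.Ball

/-!
# Few edges lie on short cycles

A point `p = (a, u)` of `Fin C × Fin n` is a key; a function `f` assigns to it the target `f p`.
`Off f p` is the digraph of the path `0 → 1 → ...` and of all edges `x → f (a', x)` with key
different from `p`, going at least two steps down, whose target has at most `Δ₀` keys different
from `p` pointing at it. It depends only on the values of `f` at keys different from `p`, and its
underlying graph has degrees at most `2 + C + Δ₀`. The key `p` is bad for `f` if its target is at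
distance at most `g` from `p.2` in this graph.

* `off_update`: clear.
* `off_deg`: neighbours of `x`: at most two on the path, at most `C` targets of keys `(a', x)`,
  at most `Δ₀` points `x'` with a key `(a', x') ≠ p` pointing at `x`.
* `bad_count`: for fixed `p` the restriction of `f` to the other keys takes at most
  `n ^ (C * n - 1)` values and for each of them (`off_update`, `ball_ncard` with `S = {p.2}`) at
  most `(Δ₀ + C + 3) ^ g` values of `f p` make `p` bad; for instance
  `Finset.card_le_mul_card_image` for the map `f ↦` restriction. Sum over the `C * n` keys.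
-/

namespace Pool.Agent.MIP

/-- The digraph of all edges whose key is not `p`. -/
def Off {C n : ℕ} (Δ₀ : ℕ) (f : Fin C × Fin n → Fin n) (p : Fin C × Fin n) (x y : Fin n) : Prop :=
  y.val = x.val + 1 ∨ (y.val + 1 < x.val ∧ Set.ncard {k | k ≠ p ∧ f k = y} ≤ Δ₀ ∧
    ∃ a, (a, x) ≠ p ∧ f (a, x) = y)

/-- The key `p` is bad for `f`. -/
def BadKey {C n : ℕ} (Δ₀ g : ℕ) (f : Fin C × Fin n → Fin n) (p : Fin C × Fin n) : Prop :=
  Near (und (Off Δ₀ f p)) g {p.2} (f p)

theorem off_update {C n Δ₀ : ℕ} (f : Fin C × Fin n → Fin n) (p : Fin C × Fin n) (v : Fin n) :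
    Off Δ₀ (Function.update f p v) p = Off Δ₀ f p := by
  have h1 : ∀ y, {k | k ≠ p ∧ Function.update f p v k = y} = {k | k ≠ p ∧ f k = y} := by
    intro y
    ext k
    constructor
    · rintro ⟨h, h'⟩
      exact ⟨h, by rwa [Function.update_of_ne h] at h'⟩
    · rintro ⟨h, h'⟩
      exact ⟨h, by rwa [Function.update_of_ne h]⟩
  funext x y
  unfold Off
  rw [h1]
  refine propext (or_congr Iff.rfl (and_congr Iff.rfl (and_congr Iff.rfl
    (exists_congr fun a => ?_))))
  constructor
  · rintro ⟨h, h'⟩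
    exact ⟨h, by rwa [Function.update_of_ne h] at h'⟩
  · rintro ⟨h, h'⟩
    exact ⟨h, by rwa [Function.update_of_ne h]⟩

theorem off_deg {C n Δ₀ : ℕ} (f : Fin C × Fin n → Fin n) (p : Fin C × Fin n) (x : Fin n) :
    Set.ncard {y | (und (Off Δ₀ f p)).Adj x y} ≤ Δ₀ + C + 2 := by
  classical
  have h1 : {y | (und (Off Δ₀ f p)).Adj x y} ⊆
      ({y : Fin n | y.val = x.val + 1} ∪ {y : Fin n | x.val = y.val + 1}) ∪
        (Set.range (fun a : Fin C => f (a, x)) ∪
          {y : Fin n | Set.ncard {k | k ≠ p ∧ f k = x} ≤ Δ₀ ∧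
            ∃ a, (a, y) ≠ p ∧ f (a, y) = x}) := by
    intro y hy
    have hy' : (und (Off Δ₀ f p)).Adj x y := hy
    rw [SimpleGraph.fromRel_adj] at hy'
    rcases hy'.2 with (h | ⟨_, _, a, _, h⟩) | (h | ⟨_, h2, a, h3, h4⟩)
    · exact Or.inl (Or.inl h)
    · exact Or.inr (Or.inl ⟨a, h⟩)
    · exact Or.inl (Or.inr h)
    · exact Or.inr (Or.inr ⟨h2, a, h3, h4⟩)
  have c1 : Set.ncard {y : Fin n | y.val = x.val + 1} ≤ 1 := by
    rw [Set.ncard_le_one_iff]
    intro a b ha hb
    have ha' : a.val = x.val + 1 := ha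
    have hb' : b.val = x.val + 1 := hb
    exact Fin.ext (by omega)
  have c2 : Set.ncard {y : Fin n | x.val = y.val + 1} ≤ 1 := by
    rw [Set.ncard_le_one_iff]
    intro a b ha hb
    have ha' : x.val = a.val + 1 := ha
    have hb' : x.val = b.val + 1 := hb
    exact Fin.ext (by omega)
  have c3 : Set.ncard (Set.range (fun a : Fin C => f (a, x))) ≤ C := by
    rw [← Set.image_univ]
    refine (Set.ncard_image_le Set.finite_univ).trans ?_
    rw [Set.ncard_univ, Nat.card_eq_fintype_card, Fintype.card_fin]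
  have c4 : Set.ncard {y : Fin n | Set.ncard {k | k ≠ p ∧ f k = x} ≤ Δ₀ ∧
      ∃ a, (a, y) ≠ p ∧ f (a, y) = x} ≤ Δ₀ := by
    by_cases h : Set.ncard {k | k ≠ p ∧ f k = x} ≤ Δ₀
    · have h2 : {y : Fin n | Set.ncard {k | k ≠ p ∧ f k = x} ≤ Δ₀ ∧
          ∃ a, (a, y) ≠ p ∧ f (a, y) = x} ⊆ Prod.snd '' {k | k ≠ p ∧ f k = x} := by
        rintro y ⟨_, a, h3, h4⟩
        exact ⟨(a, y), ⟨h3, h4⟩, rfl⟩
      refine (Set.ncard_le_ncard h2 (Set.toFinite _)).trans ?_
      exact (Set.ncard_image_le (Set.toFinite _)).trans h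
    · have h2 : {y : Fin n | Set.ncard {k | k ≠ p ∧ f k = x} ≤ Δ₀ ∧
          ∃ a, (a, y) ≠ p ∧ f (a, y) = x} = ∅ := by
        ext y
        constructor
        · rintro ⟨h3, _⟩
          exact absurd h3 h
        · intro h3
          exact absurd h3 (Set.notMem_empty y)
      rw [h2, Set.ncard_empty]
      exact Nat.zero_le _
  have t1 := Set.ncard_le_ncard h1 (Set.toFinite _)
  have t2 := Set.ncard_union_le
    ({y : Fin n | y.val = x.val + 1} ∪ {y : Fin n | x.val = y.val + 1})
    (Set.range (fun a : Fin C => f (a, x)) ∪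
      {y : Fin n | Set.ncard {k | k ≠ p ∧ f k = x} ≤ Δ₀ ∧ ∃ a, (a, y) ≠ p ∧ f (a, y) = x})
  have t3 := Set.ncard_union_le {y : Fin n | y.val = x.val + 1} {y : Fin n | x.val = y.val + 1}
  have t4 := Set.ncard_union_le (Set.range (fun a : Fin C => f (a, x)))
      {y : Fin n | Set.ncard {k | k ≠ p ∧ f k = x} ≤ Δ₀ ∧ ∃ a, (a, y) ≠ p ∧ f (a, y) = x}
  omega

private theorem r2_key {C n Δ₀ g : ℕ} (p : Fin C × Fin n) :
    Nat.card {f : Fin C × Fin n → Fin n // BadKey Δ₀ g f p} ≤
      n ^ (C * n - 1) * (Δ₀ + C + 3) ^ g := by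
  classical
  rw [Nat.card_eq_fintype_card, Fintype.card_subtype]
  have h1 := Finset.card_le_mul_card_image
    (f := fun (f : Fin C × Fin n → Fin n) (k : {k : Fin C × Fin n // k ≠ p}) => f k.1)
    (Finset.univ.filter fun f : Fin C × Fin n → Fin n => BadKey Δ₀ g f p)
    ((Δ₀ + C + 3) ^ g) (by
      intro a ha
      obtain ⟨f0, hf0, rfl⟩ := Finset.mem_image.1 ha
      have hb := ball_ncard (G := und (Off Δ₀ f0 p)) (Δ := Δ₀ + C + 2)
        (fun x => off_deg f0 p x) g {p.2}
      rw [Set.ncard_singleton, one_mul] at hb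
      refine le_trans ?_ hb
      rw [Set.ncard_eq_toFinset_card']
      refine Finset.card_le_card_of_injOn (fun f => f p) ?_ ?_
      · intro f hf
        rw [Finset.mem_coe, Finset.mem_filter, Finset.mem_filter] at hf
        obtain ⟨⟨_, hf1⟩, hf2⟩ := hf
        have hup : Function.update f0 p (f p) = f := by
          funext k
          by_cases hk : k = p
          · rw [hk, Function.update_self]
          · rw [Function.update_of_ne hk]
            exact (congrFun hf2 ⟨k, hk⟩).symm
        rw [Finset.mem_coe, Set.mem_toFinset]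
        change Near (und (Off Δ₀ f0 p)) g {p.2} (f p)
        rw [← off_update f0 p (f p), hup]
        exact hf1
      · intro f hf f' hf' hff
        rw [Finset.mem_coe, Finset.mem_filter] at hf hf'
        funext k
        by_cases hk : k = p
        · rw [hk]; exact hff
        · exact (congrFun hf.2 ⟨k, hk⟩).trans (congrFun hf'.2 ⟨k, hk⟩).symm)
  refine h1.trans ?_
  rw [mul_comm]
  refine Nat.mul_le_mul_right _ ?_
  refine (Finset.card_le_univ _).trans ?_
  rw [Fintype.card_fun, Fintype.card_fin]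
  have h2 : Fintype.card {k : Fin C × Fin n // k ≠ p} = C * n - 1 := by
    rw [Fintype.card_subtype_compl (fun k => k = p), Fintype.card_prod, Fintype.card_fin,
      Fintype.card_fin, Fintype.card_subtype_eq]
  rw [h2]

theorem bad_count (C n Δ₀ g : ℕ) (hn : 1 ≤ n) (hC : 1 ≤ C) :
    Nat.card {q : (Fin C × Fin n → Fin n) × (Fin C × Fin n) // BadKey Δ₀ g q.1 q.2} ≤
      (C * n) * (n ^ (C * n - 1) * (Δ₀ + C + 3) ^ g) := by
  classical
  let e : {q : (Fin C × Fin n → Fin n) × (Fin C × Fin n) // BadKey Δ₀ g q.1 q.2} ≃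
      Σ p : Fin C × Fin n, {f : Fin C × Fin n → Fin n // BadKey Δ₀ g f p} :=
    { toFun := fun q => ⟨q.1.2, ⟨q.1.1, q.2⟩⟩
      invFun := fun q => ⟨(q.2.1, q.1), q.2.2⟩
      left_inv := fun q => rfl
      right_inv := fun q => rfl }
  rw [Nat.card_congr e, Nat.card_sigma]
  refine (Finset.sum_le_sum fun p _ => r2_key p).trans ?_
  rw [Finset.sum_const, Finset.card_univ, Fintype.card_prod, Fintype.card_fin, Fintype.card_fin,
    smul_eq_mul]

end Pool.Agent.MIP
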