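import Pool.Agent.Lib.MP_d404e6_lc.CfgBasic

/-!
# Adding a neighbour

Let `S` be the domain and `S'` the range of `R`, `(s, s') ∈ R`, `p ∉ S` adjacent to `s`, say
`E s p` (the case `E p s` is the same with `tp_in`). Let `σ` be the type of depth `d` of `p`,
`A` the set of out-neighbours of `s` of type `σ` in `E`, and `A'` the set of out-neighbours of `s'`
of type `σ` in `E'`. `R` maps `A ∩ S` bijectively onto `A' ∩ S'` (`edge`, `typ` and `tp_le`).
Claim: `A'` has a point outside `S'`.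
* If `s ∈ S₀` then `s' = s` (`diag`, `inj`) and `A' = A` (`nbr`, `tpeq`), and
  `|A' ∩ S'| = |A ∩ S| < |A|` because `p ∈ A \ S`.
* If `s ∉ S₀` then at most one point of `A` lies in `S₀` (two of them would be joined by a path of
  length two through `s`, and `S₀` is closed, `cl0`), so `|A ∩ S| + 1 ≤ 1 + N + 1 ≤ t`
  (`Cfg.new_card`), and `min t |A| = min t |A'|` (`tp_out`) with `|A| ≥ |A ∩ S| + 1` gives
  `|A'| ≥ |A ∩ S| + 1 = |A' ∩ S'| + 1`.
Take `p' ∈ A' \ S'`. Check: the only neighbour of `p` in `S` is `s` (a second one, `y`, gives the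
path `s p y` of length `2 ≤ D + 1`, so `p ∈ S`), the only neighbour of `p'` in `S'` is `s'`; the
directions agree by asymmetry (no two-cycles, no loops). The closedness of the new domain and
range is `cl_insert_adj`. Types: `tp_le`.
-/

namespace Pool.Agent.MIP

private theorem step_cnt {V : Type} [Finite V] {R : Set (V × V)} {A A' : Set V}
    (hinj : ∀ p ∈ R, ∀ r ∈ R, (p.1 = r.1 ↔ p.2 = r.2))
    (hA : ∀ z ∈ R, (z.1 ∈ A ↔ z.2 ∈ A'))
    (h : (A ∩ Prod.fst '' R).ncard < A'.ncard) : ∃ p' ∈ A', p' ∉ Prod.snd '' R := by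
  by_contra hcon
  push Not at hcon
  have h1 : A' ⊆ Prod.snd '' {z | z ∈ R ∧ z.1 ∈ A} := by
    intro x hx
    obtain ⟨z, hz, rfl⟩ := hcon x hx
    exact ⟨z, ⟨hz, (hA z hz).2 hx⟩, rfl⟩
  have h2 : A'.ncard ≤ {z | z ∈ R ∧ z.1 ∈ A}.ncard :=
    (Set.ncard_le_ncard h1 (Set.toFinite _)).trans (Set.ncard_image_le (Set.toFinite _))
  have h3 : {z | z ∈ R ∧ z.1 ∈ A}.ncard = (Prod.fst '' {z | z ∈ R ∧ z.1 ∈ A}).ncard := by
    rw [Set.ncard_image_of_injOn]
    intro z hz r hr hzr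
    exact Prod.ext hzr ((hinj z hz.1 r hr.1).1 hzr)
  have h4 : Prod.fst '' {z | z ∈ R ∧ z.1 ∈ A} ⊆ A ∩ Prod.fst '' R := by
    rintro x ⟨z, hz, rfl⟩
    exact ⟨hz.2, z, hz.1, rfl⟩
  have h5 := Set.ncard_le_ncard h4 (Set.toFinite _)
  omega

private theorem step_find {V κ : Type} [Finite V] {t dm g B r D d N : ℕ} {E E' : V → V → Prop}
    {col : V → κ} {S₀ : Set V} {R : Set (V × V)} (hP : Pair t dm g B r E E' col S₀)
    (h : Cfg t E E' col S₀ (D + 1) (d + 1) N R) (hN : N + 2 ≤ t) {s p : V}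
    (hp : p ∉ Prod.fst '' R) {A A' : Set V}
    (hA : ∀ z ∈ R, (z.1 ∈ A ↔ z.2 ∈ A')) (hadj : ∀ w ∈ A, (und E).Adj s w) (hpA : p ∈ A)
    (hmin : min t A.ncard = min t A'.ncard) (hS0 : s ∈ S₀ → A' = A) :
    ∃ p' ∈ A', p' ∉ Prod.snd '' R := by
  refine step_cnt h.inj hA ?_
  have hlt : (A ∩ Prod.fst '' R).ncard < A.ncard := by
    refine Set.ncard_lt_ncard ⟨Set.inter_subset_left, fun hsub => ?_⟩ (Set.toFinite _)
    exact hp (hsub hpA).2
  by_cases hs0 : s ∈ S₀
  · rw [hS0 hs0]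
    exact hlt
  · have h1 : (A ∩ S₀).ncard ≤ 1 := by
      rw [Set.ncard_le_one_iff]
      intro a b ha hb
      by_contra hab
      apply hs0
      have h1 := hadj a ha.1
      have h2 := hadj b hb.1
      let w : (und E).Walk a b := SimpleGraph.Walk.cons h1.symm (SimpleGraph.Walk.cons h2 .nil)
      have hw : w.IsPath := by
        simp only [w, SimpleGraph.Walk.cons_isPath_iff, SimpleGraph.Walk.IsPath.nil, true_and,
          SimpleGraph.Walk.support_nil, SimpleGraph.Walk.support_cons, List.mem_cons,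
          List.not_mem_nil, or_false]
        refine ⟨h2.ne, ?_⟩
        rintro (h3 | h3)
        · exact h1.ne h3.symm
        · exact hab h3
      refine hP.cl0 a ha.2 b hb.2 w hw (by simp [w]) s ?_
      simp [w]
    have h2 : (A ∩ Prod.fst '' R).ncard ≤ (A ∩ S₀).ncard + ((Prod.fst '' R) \ S₀).ncard := by
      refine (Set.ncard_le_ncard ?_ (Set.toFinite _)).trans (Set.ncard_union_le _ _)
      intro x hx
      by_cases hx0 : x ∈ S₀
      · exact Or.inl ⟨hx.1, hx0⟩
      · exact Or.inr ⟨hx.2, hx0⟩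
    have h3 := h.new_card
    have h4 : (A ∩ Prod.fst '' R).ncard + 1 ≤ min t A.ncard := by
      rw [le_min_iff]
      omega
    rw [hmin] at h4
    have h5 := h4.trans (min_le_right _ _)
    omega

private theorem step_only {V : Type} {G : SimpleGraph V} {D : ℕ} {S : Set V}
    (hS : Cl G (D + 1) S) (hD : 1 ≤ D) {s p y : V} (hs : s ∈ S) (hp : p ∉ S)
    (hadj : G.Adj s p) (hy : y ∈ S) (hyp : G.Adj y p) : y = s := by
  by_contra hne
  apply hp
  let w : G.Walk s y := SimpleGraph.Walk.cons hadj (SimpleGraph.Walk.cons hyp.symm .nil)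
  have hw : w.IsPath := by
    simp only [w, SimpleGraph.Walk.cons_isPath_iff, SimpleGraph.Walk.IsPath.nil, true_and,
      SimpleGraph.Walk.support_nil, SimpleGraph.Walk.support_cons, List.mem_cons,
      List.not_mem_nil, or_false]
    refine ⟨hyp.symm.ne, ?_⟩
    rintro (h3 | h3)
    · exact hadj.ne h3
    · exact hne h3.symm
  exact hS s hs y hy w hw (by simp [w]; omega) p (by simp [w])

private theorem step_adj_iff {V : Type} {E : V → V → Prop} (ha : ∀ x y, E x y → ¬ E y x)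
    {x y : V} : (und E).Adj x y ↔ E x y ∨ E y x := by
  rw [SimpleGraph.fromRel_adj]
  constructor
  · exact fun h => h.2
  · intro h
    refine ⟨?_, h⟩
    rintro rfl
    rcases h with h | h <;> exact ha _ _ h h

private theorem step_new {V κ : Type} [Finite V] {t dm g B r D d N : ℕ} {E E' : V → V → Prop}
    {col : V → κ} {S₀ : Set V} {R : Set (V × V)} (hP : Pair t dm g B r E E' col S₀)
    (h : Cfg t E E' col S₀ (D + 1) (d + 1) N R) (hD : 1 ≤ D) (hg : D + 1 ≤ g)
    {s s' p p' : V} (hs : (s, s') ∈ R)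
    (hp : p ∉ Prod.fst '' R) (hp' : p' ∉ Prod.snd '' R)
    (htp : tp t E col d p = tp t E' col d p')
    (h1 : E s p ↔ E' s' p') (h2 : E p s ↔ E' p' s') (hadj : (und E).Adj s p) :
    Cfg t E E' col S₀ D d (N + 1) (insert (p, p') R) := by
  have hadj' : (und E').Adj s' p' := by
    rw [step_adj_iff hP.asym'] 
    rw [step_adj_iff hP.asym] at hadj
    rcases hadj with h3 | h3
    · exact Or.inl (h1.1 h3)
    · exact Or.inr (h2.1 h3)
  have hsS : s ∈ Prod.fst '' R := ⟨_, hs, rfl⟩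
  have hsS' : s' ∈ Prod.snd '' R := ⟨_, hs, rfl⟩
  have key : ∀ z ∈ R, (E z.1 p ↔ E' z.2 p') ∧ (E p z.1 ↔ E' p' z.2) := by
    intro z hz
    by_cases hzs : z.1 = s
    · have hzs' : z.2 = s' := (h.inj z hz _ hs).1 hzs
      rw [hzs, hzs']
      exact ⟨h1, h2⟩
    · have hzs' : z.2 ≠ s' := fun h3 => hzs ((h.inj z hz _ hs).2 h3)
      have h3 : ¬ (und E).Adj z.1 p := fun h4 =>
        hzs (step_only h.cl hD hsS hp hadj ⟨z, hz, rfl⟩ h4)
      have h4 : ¬ (und E').Adj z.2 p' := fun h4 =>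
        hzs' (step_only h.cl' hD hsS' hp' hadj' ⟨z, hz, rfl⟩ h4)
      rw [step_adj_iff hP.asym] at h3
      rw [step_adj_iff hP.asym'] at h4
      push Not at h3 h4
      exact ⟨⟨fun h5 => absurd h5 h3.1, fun h5 => absurd h5 h4.1⟩,
        ⟨fun h5 => absurd h5 h3.2, fun h5 => absurd h5 h4.2⟩⟩
  have hirr : ∀ x, ¬ E x x := fun x hx => hP.asym x x hx hx
  have hirr' : ∀ x, ¬ E' x x := fun x hx => hP.asym' x x hx hx
  refine ⟨?_, ?_, ?_, ?_, ?_, ?_, ?_⟩
  · rintro z (rfl | hz) w (rfl | hw)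
    · simp
    · exact ⟨fun h3 => absurd ⟨w, hw, h3.symm⟩ hp, fun h3 => absurd ⟨w, hw, h3.symm⟩ hp'⟩
    · exact ⟨fun h3 => absurd ⟨z, hz, h3⟩ hp, fun h3 => absurd ⟨z, hz, h3⟩ hp'⟩
    · exact h.inj z hz w hw
  · rintro z (rfl | hz) w (rfl | hw)
    · exact ⟨fun h3 => absurd h3 (hirr _), fun h3 => absurd h3 (hirr' _)⟩
    · exact (key w hw).2
    · exact (key z hz).1
    · exact h.edge z hz w hw
  · rintro z (rfl | hz)
    · exact htp
    · exact tp_le (Nat.le_succ d) (h.typ z hz)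
  · rw [Set.image_insert_eq]
    exact cl_insert_adj hD (fun u w hw => lt_of_le_of_lt hg (hP.girth u w hw)) h.cl hsS hp hadj
  · rw [Set.image_insert_eq]
    exact cl_insert_adj hD (fun u w hw => lt_of_le_of_lt hg (hP.girth' u w hw)) h.cl' hsS' hp'
      hadj'
  · exact fun x hx => Set.mem_insert_of_mem _ (h.diag x hx)
  · have h3 := Set.ncard_insert_le (p, p') R
    have h4 := h.card
    omega

theorem Cfg.step {V κ : Type} [Finite V] {t dm g B r D d N : ℕ} {E E' : V → V → Prop}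
    {col : V → κ} {S₀ : Set V} {R : Set (V × V)} (hP : Pair t dm g B r E E' col S₀)
    (h : Cfg t E E' col S₀ (D + 1) (d + 1) N R) (hD : 1 ≤ D) (hg : D + 1 ≤ g)
    (hd : d + 1 ≤ dm) (hN : N + 2 ≤ t) {s s' p : V} (hs : (s, s') ∈ R)
    (hadj : (und E).Adj s p) (hp : p ∉ Prod.fst '' R) :
    ∃ p', Cfg t E E' col S₀ D d (N + 1) (insert (p, p') R) := by
  have hss : s ∈ S₀ → s' = s := fun h0 => ((h.inj _ hs _ (h.diag s h0)).1 rfl)
  rcases (step_adj_iff hP.asym).1 hadj with hE | hE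
  · obtain ⟨p', hp'A, hp'⟩ := step_find hP h hN (s := s) (p := p) hp
      (A := {w | E s w ∧ tp t E col d w = tp t E col d p})
      (A' := {w | E' s' w ∧ tp t E' col d w = tp t E col d p})
      (fun z hz => by
        have h1 := h.edge _ hs z hz
        have h2 := tp_le (Nat.le_succ d) (h.typ z hz)
        simp only [Set.mem_setOf_eq]
        rw [h2]
        exact and_congr_left fun _ => h1)
      (fun w hw => (step_adj_iff hP.asym).2 (Or.inl hw.1)) ⟨hE, rfl⟩
      (tp_out (h.typ _ hs) _)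
      (fun h0 => by
        rw [hss h0]
        ext w
        simp only [Set.mem_setOf_eq]
        rw [← (hP.nbr s h0 w).1, ← hP.tpeq d ((Nat.le_succ d).trans hd) w])
    refine ⟨p', step_new hP h hD hg hs hp hp' hp'A.2.symm ⟨fun _ => hp'A.1, fun _ => hE⟩
      ⟨fun h1 => absurd h1 (hP.asym _ _ hE), fun h1 => absurd h1 (hP.asym' _ _ hp'A.1)⟩ hadj⟩
  · obtain ⟨p', hp'A, hp'⟩ := step_find hP h hN (s := s) (p := p) hp
      (A := {w | E w s ∧ tp t E col d w = tp t E col d p})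
      (A' := {w | E' w s' ∧ tp t E' col d w = tp t E col d p})
      (fun z hz => by
        have h1 := h.edge z hz _ hs
        have h2 := tp_le (Nat.le_succ d) (h.typ z hz)
        simp only [Set.mem_setOf_eq]
        rw [h2]
        exact and_congr_left fun _ => h1)
      (fun w hw => (step_adj_iff hP.asym).2 (Or.inr hw.1)) ⟨hE, rfl⟩
      (tp_in (h.typ _ hs) _)
      (fun h0 => by
        rw [hss h0]
        ext w
        simp only [Set.mem_setOf_eq]
        rw [← (hP.nbr s h0 w).2, ← hP.tpeq d ((Nat.le_succ d).trans hd) w])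
    refine ⟨p', step_new hP h hD hg hs hp hp' hp'A.2.symm
      ⟨fun h1 => absurd h1 (hP.asym _ _ hE), fun h1 => absurd h1 (hP.asym' _ _ hp'A.1)⟩
      ⟨fun _ => hp'A.1, fun _ => hE⟩ hadj⟩

end Pool.Agent.MIP
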