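import Pool.Agent.Lib.MP_d404e6_lc.Base

/-!
# Basic facts on threshold types

* `finite_Ty`: induction on `d`.
* `tp_le`: the first component of a type of depth `d + 1` is the type of depth `d`.
* `tp_out`, `tp_in`: read off the second and third component.
* `tp_del`: by induction on `d`. Only the out-neighbours of `a` and the in-neighbours of `b`
  change. The out-neighbours of `a` of type `σ` change only for `σ = tp d b`, where before the
  deletion there were more than `t` (those of the same type of depth `dm` have the same type of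
  depth `d`), hence after it at least `t`, so the number cut at `t` is `t` in both cases.
-/

namespace Pool.Agent.MIP

instance finite_Ty (κ : Type) [Finite κ] (t d : ℕ) : Finite (Ty κ t d) := by
  induction d with
  | zero => exact inferInstanceAs (Finite κ)
  | succ d ih =>
    exact inferInstanceAs
      (Finite (Ty κ t d × (Ty κ t d → Fin (t + 1)) × (Ty κ t d → Fin (t + 1))))

theorem tp_le {V V' κ : Type} {t : ℕ} {E : V → V → Prop} {E' : V' → V' → Prop} {col : V → κ}
    {col' : V' → κ} {d d' : ℕ} (h : d' ≤ d) {x : V} {y : V'}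
    (hxy : tp t E col d x = tp t E' col' d y) : tp t E col d' x = tp t E' col' d' y := by
  induction d, h using Nat.le_induction with
  | base => exact hxy
  | succ d _ ih => exact ih (congrArg Prod.fst hxy)

theorem tp_col {V V' κ : Type} {t : ℕ} {E : V → V → Prop} {E' : V' → V' → Prop} {col : V → κ}
    {col' : V' → κ} {d : ℕ} {x : V} {y : V'}
    (hxy : tp t E col d x = tp t E' col' d y) : col x = col' y :=
  tp_le (Nat.zero_le d) hxy

theorem tp_out {V V' κ : Type} {t : ℕ} {E : V → V → Prop} {E' : V' → V' → Prop} {col : V → κ}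
    {col' : V' → κ} {d : ℕ} {x : V} {y : V'}
    (hxy : tp t E col (d + 1) x = tp t E' col' (d + 1) y) (σ : Ty κ t d) :
    min t (Set.ncard {w | E x w ∧ tp t E col d w = σ}) =
      min t (Set.ncard {w | E' y w ∧ tp t E' col' d w = σ}) :=
  congrArg (fun p : Ty κ t (d + 1) => (p.2.1 σ).val) hxy

theorem tp_in {V V' κ : Type} {t : ℕ} {E : V → V → Prop} {E' : V' → V' → Prop} {col : V → κ}
    {col' : V' → κ} {d : ℕ} {x : V} {y : V'}
    (hxy : tp t E col (d + 1) x = tp t E' col' (d + 1) y) (σ : Ty κ t d) :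
    min t (Set.ncard {w | E w x ∧ tp t E col d w = σ}) =
      min t (Set.ncard {w | E' w y ∧ tp t E' col' d w = σ}) :=
  congrArg (fun p : Ty κ t (d + 1) => (p.2.2 σ).val) hxy

private theorem cut_diff {V : Type} [Finite V] {t : ℕ} {S : Set V} {b : V} (h : t < S.ncard) :
    cut t S.ncard = cut t (S \ {b}).ncard := by
  apply Fin.ext
  change min t S.ncard = min t (S \ {b}).ncard
  have h1 := Set.pred_ncard_le_ncard_sdiff_singleton S b
  rw [min_eq_left h.le, min_eq_left (by omega)]

private theorem cut_aux {V T : Type} [Finite V] {t : ℕ} {P : V → Prop} {a b x : V} {f : V → T}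
    {σ : T} (h : x = a → t < Set.ncard {w | P w ∧ f w = f b}) :
    cut t (Set.ncard {w | P w ∧ f w = σ}) =
      cut t (Set.ncard {w | (P w ∧ ¬ (x = a ∧ w = b)) ∧ f w = σ}) := by
  by_cases hx : x = a
  · by_cases hσ : f b = σ
    · have h1 : {w | (P w ∧ ¬ (x = a ∧ w = b)) ∧ f w = σ} = {w | P w ∧ f w = σ} \ {b} := by
        ext w
        simp only [Set.mem_ofPred_eq, Set.mem_sdiff, Set.mem_singleton_iff]
        constructor
        · rintro ⟨⟨h2, h3⟩, h4⟩
          exact ⟨⟨h2, h4⟩, fun h5 => h3 ⟨hx, h5⟩⟩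
        · rintro ⟨⟨h2, h4⟩, h3⟩
          exact ⟨⟨h2, fun h5 => h3 h5.2⟩, h4⟩
      rw [h1]
      apply cut_diff
      rw [← hσ]
      exact h hx
    · congr 2
      ext w
      simp only [Set.mem_ofPred_eq]
      constructor
      · rintro ⟨h2, h4⟩
        refine ⟨⟨h2, fun h5 => hσ ?_⟩, h4⟩
        rw [← h5.2, h4]
      · rintro ⟨⟨h2, -⟩, h4⟩
        exact ⟨h2, h4⟩
  · congr 2
    ext w
    simp only [Set.mem_ofPred_eq]
    constructor
    · rintro ⟨h2, h4⟩
      exact ⟨⟨h2, fun h5 => hx h5.1⟩, h4⟩
    · rintro ⟨⟨h2, -⟩, h4⟩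
      exact ⟨h2, h4⟩

theorem tp_del {V κ : Type} [Finite V] {t : ℕ} {E : V → V → Prop} {col : V → κ} {dm : ℕ}
    {a b : V}
    (hout : t < Set.ncard {w | E a w ∧ tp t E col dm w = tp t E col dm b})
    (hin : t < Set.ncard {w | E w b ∧ tp t E col dm w = tp t E col dm a}) :
    ∀ d ≤ dm, ∀ x, tp t E col d x = tp t (del E a b) col d x := by
  intro d
  induction d with
  | zero => exact fun _ _ => rfl
  | succ d ih =>
    intro hd x
    have ih' := ih (by omega)
    have hd' : d ≤ dm := by omega
    have e : tp t (del E a b) col d = tp t E col d := funext fun w => (ih' w).symm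
    have h1 : ∀ σ : Ty κ t d, cut t (Set.ncard {w | E x w ∧ tp t E col d w = σ}) =
        cut t (Set.ncard {w | del E a b x w ∧ tp t (del E a b) col d w = σ}) := by
      intro σ
      rw [e]
      refine cut_aux (P := fun w => E x w) (f := tp t E col d) (a := a) (b := b) (x := x) ?_
      rintro rfl
      refine hout.trans_le (Set.ncard_le_ncard ?_ (Set.toFinite _))
      rintro w ⟨hw, hw'⟩
      exact ⟨hw, tp_le hd' hw'⟩
    have h2 : ∀ σ : Ty κ t d, cut t (Set.ncard {w | E w x ∧ tp t E col d w = σ}) =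
        cut t (Set.ncard {w | del E a b w x ∧ tp t (del E a b) col d w = σ}) := by
      intro σ
      rw [e]
      have h3 := cut_aux (P := fun w => E w x) (f := tp t E col d) (a := b) (b := a) (x := x)
        (t := t) (σ := σ) ?_
      · rw [h3]
        congr 2
        ext w
        simp only [Set.mem_ofPred_eq, del]
        constructor
        · rintro ⟨⟨h4, h5⟩, h6⟩
          exact ⟨⟨h4, fun h7 => h5 ⟨h7.2, h7.1⟩⟩, h6⟩
        · rintro ⟨⟨h4, h5⟩, h6⟩
          exact ⟨⟨h4, fun h7 => h5 ⟨h7.2, h7.1⟩⟩, h6⟩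
      · rintro rfl
        refine hin.trans_le (Set.ncard_le_ncard ?_ (Set.toFinite _))
        rintro w ⟨hw, hw'⟩
        exact ⟨hw, tp_le hd' hw'⟩
    exact Prod.ext (ih' x) (Prod.ext (funext h1) (funext h2))

end Pool.Agent.MIP
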