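import Pool.Agent.Lib.MP_d404e6_lc.Ext

/-!
# Deleting an edge is not noticed

Parameters: `t = 2 ^ (q + 1) + 2`, `dm = 2 ^ q`, `g = 2 ^ (q + 1)`, `B = 2 ^ (q + 1) + 1`,
`r = 2 ^ q`. First prove `Pair t dm g B r E (del E a b) col S₀`: `tpeq` is `tp_del`; `nbr` holds
because `a, b ∉ S₀` (they are not near `S₀`); the graph facts for `del E a b` follow from
`und (del E a b) ≤ und E` (cycles map to cycles, `cl_le`, `near_le`); `freq'` from `freq`,
`tpeq` and `near_le`.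
The back-and-forth system: `F m R` iff `m ≤ q` and
`Cfg t E (del E a b) col S₀ (2 ^ m) (2 ^ m) (2 ^ (q + 1) + 1 - 2 ^ m) R`. Extension from `m + 1`
to `m` is `Cfg.ext`, `Cfg.ext'` with `D = d = 2 ^ m`, `N = 2 ^ (q + 1) + 1 - 2 ^ (m + 1)` (check:
`N + 2 ^ m + 1 ≤ t`, `N ≤ B`). Start: for `x` take `S' ⊇ S₀ ∪ {x}` from `cl_add` with
`D = 2 ^ q` and let `R` be the diagonal of `S'` (at most `S₀.ncard + 2 ^ q + 1` points, and the
budget for `m = q` is `2 ^ q + 1`). It is a configuration because not both of `a` and `b` lie in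
`S'`: a point of `S'` is in `S₀`, or equal to `x`, or at distance at most `2 ^ q` from `S₀`; `a`
and `b` are distinct (by `asym`) and not at distance at most `2 ^ q + 1` from `S₀`, so both would
have to be `x`.
-/

namespace Pool.Agent.MIP

private theorem und_del_le {V : Type} (E : V → V → Prop) (a b : V) :
    und (del E a b) ≤ und E := by
  intro x y h
  rw [SimpleGraph.fromRel_adj] at h ⊢
  exact ⟨h.1, h.2.imp (fun h => h.1) (fun h => h.1)⟩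

private theorem noShort_le {V : Type} {G G' : SimpleGraph V} (hG : G' ≤ G) {g : ℕ}
    (h : NoShort G g) : NoShort G' g := by
  intro u w hw
  have := h u (w.mapLe hG) (hw.mapLe hG)
  rwa [SimpleGraph.Walk.mapLe, SimpleGraph.Walk.length_map] at this

private theorem pair_del {V κ : Type} [Finite V] (q : ℕ) {E : V → V → Prop} {col : V → κ}
    {a b : V} (asym : ∀ x y, E x y → ¬ E y x)
    (hg : NoShort (und E) (2 ^ (q + 1))) {S₀ : Set V} (hS : Cl (und E) (2 ^ (q + 1)) S₀)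
    (ha : ¬ Near (und E) (2 ^ q + 1) S₀ a) (hb : ¬ Near (und E) (2 ^ q + 1) S₀ b)
    (hout : 2 ^ (q + 1) + 2 < Set.ncard
      {w | E a w ∧ tp (2 ^ (q + 1) + 2) E col (2 ^ q) w = tp (2 ^ (q + 1) + 2) E col (2 ^ q) b})
    (hin : 2 ^ (q + 1) + 2 < Set.ncard
      {w | E w b ∧ tp (2 ^ (q + 1) + 2) E col (2 ^ q) w = tp (2 ^ (q + 1) + 2) E col (2 ^ q) a})
    (freq : ∀ x, x ∉ S₀ → ∀ S : Set V, S.ncard ≤ S₀.ncard + 2 ^ (q + 1) + 1 →
      ∃ y, tp (2 ^ (q + 1) + 2) E col (2 ^ q) y = tp (2 ^ (q + 1) + 2) E col (2 ^ q) x ∧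
        ¬ Near (und E) (2 ^ q) S y) :
    Pair (2 ^ (q + 1) + 2) (2 ^ q) (2 ^ (q + 1)) (2 ^ (q + 1) + 1) (2 ^ q) E (del E a b) col
      S₀ := by
  have h2 : 2 ≤ 2 ^ (q + 1) := by
    have := Nat.one_le_two_pow (n := q)
    omega
  have haS : a ∉ S₀ := fun h => ha ⟨a, h, SimpleGraph.Walk.nil, Nat.zero_le _⟩
  have hbS : b ∉ S₀ := fun h => hb ⟨b, h, SimpleGraph.Walk.nil, Nat.zero_le _⟩
  have ht := tp_del hout hin
  refine ⟨asym, fun x y h h' => asym x y h.1 h'.1, hg, noShort_le (und_del_le E a b) hg, ht,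
    ?_, cl_mono h2 hS, cl_le (und_del_le E a b) (cl_mono h2 hS), ?_, ?_⟩
  · intro x hx y
    refine ⟨⟨fun h => ⟨h, fun h' => haS (h'.1 ▸ hx)⟩, fun h => h.1⟩,
      ⟨fun h => ⟨h, fun h' => hbS (h'.2 ▸ hx)⟩, fun h => h.1⟩⟩
  · intro x hx S hc
    exact freq x hx S (by omega)
  · intro x hx S hc
    obtain ⟨y, hy, hn⟩ := freq x hx S (by omega)
    refine ⟨y, ?_, fun h => hn (near_le (und_del_le E a b) h)⟩
    rw [← ht _ le_rfl y, ← ht _ le_rfl x, hy]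

theorem unnoticed {V κ : Type} [Finite V] (q : ℕ) {E : V → V → Prop} {col : V → κ} {a b : V}
    (hab : E a b) (asym : ∀ x y, E x y → ¬ E y x)
    (hg : NoShort (und E) (2 ^ (q + 1))) {S₀ : Set V} (hS : Cl (und E) (2 ^ (q + 1)) S₀)
    (ha : ¬ Near (und E) (2 ^ q + 1) S₀ a) (hb : ¬ Near (und E) (2 ^ q + 1) S₀ b)
    (hout : 2 ^ (q + 1) + 2 < Set.ncard
      {w | E a w ∧ tp (2 ^ (q + 1) + 2) E col (2 ^ q) w = tp (2 ^ (q + 1) + 2) E col (2 ^ q) b})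
    (hin : 2 ^ (q + 1) + 2 < Set.ncard
      {w | E w b ∧ tp (2 ^ (q + 1) + 2) E col (2 ^ q) w = tp (2 ^ (q + 1) + 2) E col (2 ^ q) a})
    (freq : ∀ x, x ∉ S₀ → ∀ S : Set V, S.ncard ≤ S₀.ncard + 2 ^ (q + 1) + 1 →
      ∃ y, tp (2 ^ (q + 1) + 2) E col (2 ^ q) y = tp (2 ^ (q + 1) + 2) E col (2 ^ q) x ∧
        ¬ Near (und E) (2 ^ q) S y) :
    BF q E (del E a b) col := by
  have hP := pair_del q asym hg hS ha hb hout hin freq
  refine ⟨fun m R => m ≤ q ∧ Cfg (2 ^ (q + 1) + 2) E (del E a b) col S₀ (2 ^ m) (2 ^ m)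
    (2 ^ (q + 1) + 1 - 2 ^ m) R, ?_, ?_, ?_, ?_, ?_⟩
  · rintro m R ⟨-, h⟩ p hp
    exact tp_col (h.typ p hp)
  · rintro m R ⟨-, h⟩ p hp r hr
    exact ⟨h.inj p hp r hr, h.edge p hp r hr⟩
  · rintro m R ⟨hm, h⟩ x
    have e1 : 2 ^ (m + 1) = 2 * 2 ^ m := by ring
    have e2 : 2 ^ (q + 1) = 2 * 2 ^ q := by ring
    have h3 : 2 ^ (m + 1) ≤ 2 ^ q := Nat.pow_le_pow_right (by norm_num) hm
    have h4 : 1 ≤ 2 ^ m := Nat.one_le_two_pow
    have h' : Cfg (2 ^ (q + 1) + 2) E (del E a b) col S₀ (2 * 2 ^ m) (2 ^ m + 2 ^ m)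
        (2 ^ (q + 1) + 1 - 2 ^ (m + 1)) R := h.weaken (by omega) (by omega) le_rfl
    obtain ⟨y, R', hR, hxy, hc⟩ := Cfg.ext hP h' h4 (by omega) (by omega) (by omega) (by omega)
      (by omega) x
    exact ⟨y, R', ⟨by omega, hc.weaken le_rfl le_rfl (by omega)⟩, hR, hxy⟩
  · rintro m R ⟨hm, h⟩ y
    have e1 : 2 ^ (m + 1) = 2 * 2 ^ m := by ring
    have e2 : 2 ^ (q + 1) = 2 * 2 ^ q := by ring
    have h3 : 2 ^ (m + 1) ≤ 2 ^ q := Nat.pow_le_pow_right (by norm_num) hm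
    have h4 : 1 ≤ 2 ^ m := Nat.one_le_two_pow
    have h' : Cfg (2 ^ (q + 1) + 2) E (del E a b) col S₀ (2 * 2 ^ m) (2 ^ m + 2 ^ m)
        (2 ^ (q + 1) + 1 - 2 ^ (m + 1)) R := h.weaken (by omega) (by omega) le_rfl
    obtain ⟨x, R', hR, hxy, hc⟩ := Cfg.ext' hP h' h4 (by omega) (by omega) (by omega) (by omega)
      (by omega) y
    exact ⟨x, R', ⟨by omega, hc.weaken le_rfl le_rfl (by omega)⟩, hR, hxy⟩
  · intro x
    have e2 : 2 ^ (q + 1) = 2 * 2 ^ q := by ring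
    obtain ⟨S', hSS, hxS, hcl, hcard, hnear⟩ := cl_add (G := und E) (D := 2 ^ q) (S := S₀)
      Nat.one_le_two_pow (e2 ▸ hg) (e2 ▸ hS) x
    have hfst : Prod.fst '' ((fun z : V => (z, z)) '' S') = S' := by
      rw [Set.image_image]
      exact Set.image_id S'
    have hsnd : Prod.snd '' ((fun z : V => (z, z)) '' S') = S' := by
      rw [Set.image_image]
      exact Set.image_id S'
    refine ⟨(fun z => (z, z)) '' S', ⟨le_rfl, ?_⟩, ⟨x, hxS, rfl⟩⟩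
    have ha' : ∀ c, ¬ Near (und E) (2 ^ q + 1) S₀ c → c ∈ S' → c = x := by
      intro c hc hcS
      rcases hnear c hcS with h | h | h
      · exact absurd ⟨c, h, SimpleGraph.Walk.nil, Nat.zero_le _⟩ hc
      · exact h
      · exact absurd (near_mono (Nat.le_succ _) h) hc
    refine ⟨?_, ?_, ?_, ?_, ?_, ?_, ?_⟩
    · rintro _ ⟨z, hz, rfl⟩ _ ⟨w, hw, rfl⟩
      exact Iff.rfl
    · rintro _ ⟨z, hz, rfl⟩ _ ⟨w, hw, rfl⟩
      refine ⟨fun h => ⟨h, ?_⟩, fun h => h.1⟩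
      rintro ⟨h1, h2⟩
      have h3 : a = x := ha' a ha (h1 ▸ hz)
      have h4 : b = x := ha' b hb (h2 ▸ hw)
      rw [h3, h4] at hab
      exact asym _ _ hab hab
    · rintro _ ⟨z, hz, rfl⟩
      exact hP.tpeq _ le_rfl z
    · rw [hfst]
      exact hcl
    · rw [hsnd]
      exact cl_le (und_del_le E a b) hcl
    · intro z hz
      exact ⟨z, hSS hz, rfl⟩
    · have h5 : ((fun z : V => (z, z)) '' S').ncard = S'.ncard :=
        Set.ncard_image_of_injective _ fun z w h => (Prod.mk.inj h).1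
      rw [h5]
      omega

end Pool.Agent.MIP
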